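import Mathlib

/-!
# The symmetrised bilinear form of the Navier-Stokes equations in Fourier variables

For `r ∈ ℂ³` orthogonal to the real vector `k`, and all `a, b ∈ ℂ³`,
`|⟨r, (k·a) b + (k·b) a⟩| ≤ |r| |k| |a| |b|`.
-/

set_option autoImplicit false

namespace Pool.Agent.W909.NS

/-- `ℂ³` with its Hermitian norm. -/
abbrev C3 := EuclideanSpace ℂ (Fin 3)

/-- `|k|`. -/
noncomputable def nk (k : Fin 3 → ℤ) : ℝ := Real.sqrt (∑ j, (k j : ℝ) ^ 2)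

/-- `k · a`. -/
noncomputable def dk (k : Fin 3 → ℤ) (a : C3) : ℂ := ∑ j, (k j : ℂ) * a j

theorem nk_nonneg (k : Fin 3 → ℤ) : 0 ≤ nk k := Real.sqrt_nonneg _

theorem nk_sq (k : Fin 3 → ℤ) : nk k ^ 2 = ∑ j, (k j : ℝ) ^ 2 :=
  Real.sq_sqrt (Finset.sum_nonneg fun _ _ => sq_nonneg _)

theorem nk_zero : nk 0 = 0 := by simp [nk]

theorem one_le_nk {k : Fin 3 → ℤ} (hk : k ≠ 0) : 1 ≤ nk k := by
  obtain ⟨i, hi⟩ := Function.ne_iff.1 hk
  unfold nk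
  rw [Real.one_le_sqrt]
  have h1 : (1 : ℝ) ≤ (k i : ℝ) ^ 2 := by
    have h2 : (1 : ℤ) ≤ (k i) ^ 2 := by
      have h3 : 0 < (k i) ^ 2 := by
        have : k i ≠ 0 := hi
        positivity
      omega
    exact_mod_cast h2
  exact h1.trans (Finset.single_le_sum (f := fun i => (k i : ℝ) ^ 2)
    (fun i _ => sq_nonneg _) (Finset.mem_univ i))

theorem nk_pos {k : Fin 3 → ℤ} (hk : k ≠ 0) : 0 < nk k := lt_of_lt_of_le one_pos (one_le_nk hk)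

theorem nk_neg (k : Fin 3 → ℤ) : nk (-k) = nk k := by simp [nk]

theorem norm_sq_C3 (a : C3) : ‖a‖ ^ 2 = ∑ i, ‖a i‖ ^ 2 := by
  rw [EuclideanSpace.norm_eq, Real.sq_sqrt (Finset.sum_nonneg fun _ _ => sq_nonneg _)]

/-- The inner product of `r ⊥ k` with `b` does not see the part of `b` along `k`. -/
theorem inner_perp {k : Fin 3 → ℤ} (hk : k ≠ 0) {r : C3} (hr : dk k r = 0) (b : C3) :
    ‖∑ i, (starRingEnd ℂ) (r i) * b i‖ ^ 2
      ≤ ‖r‖ ^ 2 * (‖b‖ ^ 2 - ‖dk k b‖ ^ 2 / nk k ^ 2) := by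
  have hn := nk_pos hk
  set κ : ℝ := nk k ^ 2 with hκ
  have hκ0 : 0 < κ := by positivity
  have hκe : (κ : ℂ) = ∑ j, (k j : ℂ) * (k j : ℂ) := by
    rw [hκ, nk_sq]; push_cast
    exact Finset.sum_congr rfl fun j _ => by ring
  have hκc : (κ : ℂ) ≠ 0 := by exact_mod_cast hκ0.ne'
  set c : ℂ := dk k b / κ with hc
  set b' : C3 := WithLp.toLp 2 fun i => b i - c * (k i : ℂ) with hb'
  have hrc : ∑ i, (starRingEnd ℂ) (r i) * (k i : ℂ) = 0 := by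
    have h1 := congrArg (starRingEnd ℂ) hr
    rw [dk, map_sum, map_zero] at h1
    rw [← h1]
    refine Finset.sum_congr rfl fun i _ => ?_
    rw [map_mul]
    have : (starRingEnd ℂ) (k i : ℂ) = (k i : ℂ) := by simp
    rw [this]; ring
  have e1 : ∑ i, (starRingEnd ℂ) (r i) * b i = ∑ i, (starRingEnd ℂ) (r i) * b' i := by
    have : ∀ i, b' i = b i - c * (k i : ℂ) := fun i => rfl
    simp_rw [this, mul_sub, Finset.sum_sub_distrib]
    have e2 : ∑ i, (starRingEnd ℂ) (r i) * (c * (k i : ℂ))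
        = c * ∑ i, (starRingEnd ℂ) (r i) * (k i : ℂ) := by
      rw [Finset.mul_sum]
      exact Finset.sum_congr rfl fun i _ => by ring
    rw [e2, hrc, mul_zero, sub_zero]
  have e3 : ∑ i, (starRingEnd ℂ) (r i) * b' i = inner ℂ r b' := by
    rw [PiLp.inner_apply]
    refine Finset.sum_congr rfl fun i _ => ?_
    rw [RCLike.inner_apply]
    ring
  have h1 : ‖∑ i, (starRingEnd ℂ) (r i) * b i‖ ≤ ‖r‖ * ‖b'‖ := by
    rw [e1, e3]
    exact norm_inner_le_norm r b'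
  have h2 : ‖b'‖ ^ 2 = ‖b‖ ^ 2 - ‖dk k b‖ ^ 2 / κ := by
    have hz : ∀ z : ℂ, ((‖z‖ ^ 2 : ℝ) : ℂ) = (starRingEnd ℂ) z * z := fun z => by
      rw [mul_comm, Complex.mul_conj, Complex.normSq_eq_norm_sq]
    have : ((‖b'‖ ^ 2 : ℝ) : ℂ) = ((‖b‖ ^ 2 - ‖dk k b‖ ^ 2 / κ : ℝ) : ℂ) := by
      rw [norm_sq_C3, norm_sq_C3]
      push_cast
      simp only [← Complex.ofReal_pow, hz]
      have e4 : ∀ i, (starRingEnd ℂ) (b' i) * b' i = (starRingEnd ℂ) (b i) * b i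
          - c * ((starRingEnd ℂ) (b i) * (k i : ℂ)) - (starRingEnd ℂ) c * ((k i : ℂ) * b i)
          + (starRingEnd ℂ) c * c * ((k i : ℂ) * (k i : ℂ)) := by
        intro i
        have : b' i = b i - c * (k i : ℂ) := rfl
        rw [this, map_sub, map_mul]
        have : (starRingEnd ℂ) (k i : ℂ) = (k i : ℂ) := by simp
        rw [this]; ring
      simp_rw [e4]
      rw [Finset.sum_add_distrib, Finset.sum_sub_distrib, Finset.sum_sub_distrib,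
        ← Finset.mul_sum, ← Finset.mul_sum, ← Finset.mul_sum, ← hκe]
      have e5 : ∑ i, (starRingEnd ℂ) (b i) * (k i : ℂ) = (starRingEnd ℂ) (dk k b) := by
        rw [dk, map_sum]
        refine Finset.sum_congr rfl fun i _ => ?_
        rw [map_mul]
        have : (starRingEnd ℂ) (k i : ℂ) = (k i : ℂ) := by simp
        rw [this]; ring
      have e6 : ∑ i, (k i : ℂ) * b i = dk k b := rfl
      have e7 : (starRingEnd ℂ) c = (starRingEnd ℂ) (dk k b) / κ := by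
        rw [hc, map_div₀, Complex.conj_ofReal]
      rw [e5, e6, e7, hc]
      field_simp
      ring
    exact_mod_cast this
  calc ‖∑ i, (starRingEnd ℂ) (r i) * b i‖ ^ 2 ≤ (‖r‖ * ‖b'‖) ^ 2 := by gcongr
    _ = ‖r‖ ^ 2 * (‖b‖ ^ 2 - ‖dk k b‖ ^ 2 / κ) := by rw [mul_pow, h2]

/-- The bound for the symmetrised bilinear form. -/
theorem bil_le (k : Fin 3 → ℤ) {r : C3} (hr : dk k r = 0) (a b : C3) :
    ‖∑ i, (starRingEnd ℂ) (r i) * (dk k a * b i + dk k b * a i)‖ ≤ nk k * ‖r‖ * (‖a‖ * ‖b‖) := by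
  by_cases hk : k = 0
  · subst hk
    have : ∀ a : C3, dk 0 a = 0 := fun a => by simp [dk]
    simp only [this, zero_mul, add_zero, mul_zero, Finset.sum_const_zero, norm_zero, nk_zero, le_refl]
  have hn := nk_pos hk
  set κ : ℝ := nk k with hκ
  set P : ℂ := ∑ i, (starRingEnd ℂ) (r i) * b i with hP
  set Q : ℂ := ∑ i, (starRingEnd ℂ) (r i) * a i with hQ
  have e : ∑ i, (starRingEnd ℂ) (r i) * (dk k a * b i + dk k b * a i) = dk k a * P + dk k b * Q := by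
    rw [hP, hQ, Finset.mul_sum, Finset.mul_sum, ← Finset.sum_add_distrib]
    exact Finset.sum_congr rfl fun i _ => by ring
  have h1 := inner_perp hk hr b
  have h2 := inner_perp hk hr a
  rw [← hP, ← hκ] at h1
  rw [← hQ, ← hκ] at h2
  rw [e]
  set α : ℝ := ‖dk k a‖ with hα
  set β : ℝ := ‖dk k b‖ with hβ
  have h3 : ‖dk k a * P + dk k b * Q‖ ≤ α * ‖P‖ + β * ‖Q‖ := by
    refine (norm_add_le _ _).trans ?_
    rw [norm_mul, norm_mul]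
  refine h3.trans ?_
  refine abs_le_of_sq_le_sq' ?_ (by positivity) |>.2
  have hα0 : 0 ≤ α := norm_nonneg _
  have hβ0 : 0 ≤ β := norm_nonneg _
  have hκ2 : 0 < κ ^ 2 := by positivity
  -- Cauchy-Schwarz
  set R := ‖r‖ with hR
  have hR0 : 0 ≤ R := norm_nonneg _
  have h4 : κ ^ 2 * ‖P‖ ^ 2 ≤ R ^ 2 * (κ ^ 2 * ‖b‖ ^ 2 - β ^ 2) := by
    have := mul_le_mul_of_nonneg_left h1 hκ2.le
    refine this.trans (le_of_eq ?_)
    field_simp
  have h5 : κ ^ 2 * ‖Q‖ ^ 2 ≤ R ^ 2 * (κ ^ 2 * ‖a‖ ^ 2 - α ^ 2) := by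
    have := mul_le_mul_of_nonneg_left h2 hκ2.le
    refine this.trans (le_of_eq ?_)
    field_simp
  rcases eq_or_lt_of_le hR0 with hR0' | hRpos
  · have p0 : ‖P‖ = 0 := by
      rw [← hR0'] at h4
      have : κ ^ 2 * ‖P‖ ^ 2 ≤ 0 := by linarith [h4]
      have h6 : ‖P‖ ^ 2 ≤ 0 := by
        by_contra hc
        push Not at hc
        have := mul_pos hκ2 hc
        linarith
      exact pow_eq_zero_iff (two_ne_zero) |>.1 (le_antisymm h6 (sq_nonneg _))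
    have q0 : ‖Q‖ = 0 := by
      rw [← hR0'] at h5
      have : κ ^ 2 * ‖Q‖ ^ 2 ≤ 0 := by linarith [h5]
      have h6 : ‖Q‖ ^ 2 ≤ 0 := by
        by_contra hc
        push Not at hc
        have := mul_pos hκ2 hc
        linarith
      exact pow_eq_zero_iff (two_ne_zero) |>.1 (le_antisymm h6 (sq_nonneg _))
    rw [p0, q0]
    simp only [mul_zero, add_zero, ne_eq, OfNat.ofNat_ne_zero, not_false_eq_true, zero_pow]
    positivity
  have hA0 : 0 ≤ κ ^ 2 * ‖a‖ ^ 2 - α ^ 2 := by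
    have : 0 ≤ R ^ 2 * (κ ^ 2 * ‖a‖ ^ 2 - α ^ 2) := le_trans (by positivity) h5
    exact nonneg_of_mul_nonneg_right this (by positivity)
  have hB0 : 0 ≤ κ ^ 2 * ‖b‖ ^ 2 - β ^ 2 := by
    have : 0 ≤ R ^ 2 * (κ ^ 2 * ‖b‖ ^ 2 - β ^ 2) := le_trans (by positivity) h4
    exact nonneg_of_mul_nonneg_right this (by positivity)
  -- square roots
  set x := Real.sqrt (κ ^ 2 * ‖a‖ ^ 2 - α ^ 2) with hx
  set y := Real.sqrt (κ ^ 2 * ‖b‖ ^ 2 - β ^ 2) with hy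
  have hx2 : x ^ 2 = κ ^ 2 * ‖a‖ ^ 2 - α ^ 2 := Real.sq_sqrt hA0
  have hy2 : y ^ 2 = κ ^ 2 * ‖b‖ ^ 2 - β ^ 2 := Real.sq_sqrt hB0
  have hx0 : 0 ≤ x := Real.sqrt_nonneg _
  have hy0 : 0 ≤ y := Real.sqrt_nonneg _
  have hPy : κ * ‖P‖ ≤ R * y := by
    refine abs_le_of_sq_le_sq' ?_ (by positivity) |>.2
    rw [mul_pow, mul_pow, hy2]; exact h4
  have hQx : κ * ‖Q‖ ≤ R * x := by
    refine abs_le_of_sq_le_sq' ?_ (by positivity) |>.2
    rw [mul_pow, mul_pow, hx2]; exact h5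
  have h7 : κ * (α * ‖P‖ + β * ‖Q‖) ≤ R * (α * y + β * x) := by
    have := mul_le_mul_of_nonneg_left hPy hα0
    have := mul_le_mul_of_nonneg_left hQx hβ0
    nlinarith
  have h8 : (α * y + β * x) ^ 2 ≤ (κ ^ 2 * ‖a‖ ^ 2) * (κ ^ 2 * ‖b‖ ^ 2) := by
    have e1 : κ ^ 2 * ‖a‖ ^ 2 = α ^ 2 + x ^ 2 := by rw [hx2]; ring
    have e2 : κ ^ 2 * ‖b‖ ^ 2 = β ^ 2 + y ^ 2 := by rw [hy2]; ring
    rw [e1, e2]
    nlinarith [sq_nonneg (α * β - x * y)]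
  have h9 : (κ * (α * ‖P‖ + β * ‖Q‖)) ^ 2 ≤ (R * (α * y + β * x)) ^ 2 := by
    gcongr
  have h10 : κ ^ 2 * (α * ‖P‖ + β * ‖Q‖) ^ 2 ≤ κ ^ 2 * (κ * R * (‖a‖ * ‖b‖)) ^ 2 := by
    calc κ ^ 2 * (α * ‖P‖ + β * ‖Q‖) ^ 2 = (κ * (α * ‖P‖ + β * ‖Q‖)) ^ 2 := by ring
      _ ≤ (R * (α * y + β * x)) ^ 2 := h9
      _ = R ^ 2 * (α * y + β * x) ^ 2 := by ring
      _ ≤ R ^ 2 * ((κ ^ 2 * ‖a‖ ^ 2) * (κ ^ 2 * ‖b‖ ^ 2)) := by gcongr
      _ = κ ^ 2 * (κ * R * (‖a‖ * ‖b‖)) ^ 2 := by ring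
  exact le_of_mul_le_mul_left h10 hκ2

end Pool.Agent.W909.NS
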