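import Pool.Agent.W909.NS.Nl

/-!
# Uniform decay of the Fourier coefficients on compact time intervals
-/

set_option autoImplicit false

open MeasureTheory Set Filter Topology H459R3.NS
open scoped ContDiff

namespace Pool.Agent.W909.NS

variable {ν T : ℝ} {u : ℝ → V → V} {p : ℝ → V → ℝ}

theorem sup_fr {F : ℝ → V → ℝ}
    (hF : ContDiffOn ℝ ∞ (fun z : ℝ × V => F z.1 z.2) (Ico 0 T ×ˢ univ)) {t1 : ℝ}
    (ht1 : t1 < T) : ∃ C : ℝ, 0 ≤ C ∧ ∀ s ∈ Icc 0 t1, ∀ k, ‖fr (F s) k‖ ≤ C := by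
  have hK : IsCompact (Icc 0 t1 ×ˢ cube) := isCompact_Icc.prod isCompact_Icc
  have hsub : Icc 0 t1 ×ˢ cube ⊆ Ico 0 T ×ˢ (univ : Set V) :=
    prod_mono (fun s hs => ⟨hs.1, hs.2.trans_lt ht1⟩) (subset_univ _)
  obtain ⟨C, hC⟩ := hK.exists_bound_of_continuousOn (hF.continuousOn.mono hsub)
  refine ⟨max C 0, le_max_right _ _, fun s hs k => ?_⟩
  unfold fr fc
  have h := norm_setIntegral_le_of_norm_le_const (μ := volume) (s := cube) (C := max C 0)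
    (f := fun x => ee (-k) x * (F s x : ℂ)) (by rw [volume_cube]; exact ENNReal.one_lt_top)
    (fun x hx => by
      rw [norm_mul, norm_ee, one_mul, Complex.norm_real]
      exact (hC (s, x) ⟨hs, hx⟩).trans (le_max_left _ _))
  rw [Measure.real, volume_cube, ENNReal.toReal_one, mul_one] at h
  exact h

theorem contDiffOn_iter {F : ℝ → V → ℝ}
    (hF : ContDiffOn ℝ ∞ (fun z : ℝ × V => F z.1 z.2) (Ico 0 T ×ˢ univ)) (j : Fin 3) (n : ℕ) :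
    ContDiffOn ℝ ∞ (fun z : ℝ × V => ((pd j)^[n] (F z.1)) z.2) (Ico 0 T ×ˢ univ) := by
  induction n with
  | zero => exact hF
  | succ n ih =>
    have := contDiffOn_pd (f := fun t => (pd j)^[n] (F t)) ih j
    refine this.congr fun z _ => ?_
    rw [Function.iterate_succ_apply']

theorem sup_N {F : ℝ → V → ℝ}
    (hF : ContDiffOn ℝ ∞ (fun z : ℝ × V => F z.1 z.2) (Ico 0 T ×ˢ univ))
    (hper : ∀ t ∈ Ico 0 T, Per (F t)) {t1 : ℝ}
    (ht1 : t1 < T) (n : ℕ) :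
    ∃ C : ℝ, 0 ≤ C ∧ ∀ s ∈ Icc 0 t1, ∀ k, (N k : ℝ) ^ n * ‖fr (F s) k‖ ≤ C := by
  choose C hC0 hC using fun j => sup_fr (F := fun t => (pd j)^[n] (F t)) (contDiffOn_iter hF j n) ht1
  refine ⟨∑ j, C j, Finset.sum_nonneg fun j _ => hC0 j, fun s hs k => ?_⟩
  have hsI : s ∈ Ico 0 T := ⟨hs.1, hs.2.trans_lt ht1⟩
  have hsp : SP (F s) := ⟨contDiff_slice hF hsI, hper s hsI⟩
  have h1 : ∀ j, |(k j : ℝ)| ^ n * ‖fr (F s) k‖ ≤ C j := by
    intro j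
    refine le_trans ?_ (hC j s hs k)
    rw [fr_iter hsp, norm_mul, norm_pow]
    gcongr
    rw [norm_mul, norm_mul, norm_mul, Complex.norm_I, mul_one, Complex.norm_real,
      Real.norm_eq_abs, abs_of_pos Real.pi_pos, Complex.norm_ofNat, Complex.norm_intCast]
    have := Real.pi_gt_three
    nlinarith [abs_nonneg (k j : ℝ)]
  calc (N k : ℝ) ^ n * ‖fr (F s) k‖ ≤ (∑ j, |(k j : ℝ)| ^ n) * ‖fr (F s) k‖ :=
        mul_le_mul_of_nonneg_right (N_pow_le k n) (norm_nonneg _)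
    _ = ∑ j, |(k j : ℝ)| ^ n * ‖fr (F s) k‖ := by rw [Finset.sum_mul]
    _ ≤ ∑ j, C j := Finset.sum_le_sum fun j _ => h1 j

/-- A summable weight. -/
noncomputable def Pk (k : K3) : ℝ :=
  (1 / (1 + (k 0 : ℝ) ^ 2)) * ((1 / (1 + (k 1 : ℝ) ^ 2)) * (1 / (1 + (k 2 : ℝ) ^ 2)))

theorem Pk_pos (k : K3) : 0 < Pk k := by unfold Pk; positivity

theorem summable_Pk : Summable Pk := summable_K3

theorem one_le_Pk (k : K3) : 1 ≤ Pk k * (1 + (N k : ℝ)) ^ 6 := by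
  have h0 := one_add_sq_le k 0
  have h1' := one_add_sq_le k 1
  have h2' := one_add_sq_le k 2
  have hprod : (1 + (k 0 : ℝ) ^ 2) * ((1 + (k 1 : ℝ) ^ 2) * (1 + (k 2 : ℝ) ^ 2))
      ≤ (1 + (N k : ℝ)) ^ 6 := by
    calc (1 + (k 0 : ℝ) ^ 2) * ((1 + (k 1 : ℝ) ^ 2) * (1 + (k 2 : ℝ) ^ 2))
        ≤ (1 + (N k : ℝ)) ^ 2 * ((1 + (N k : ℝ)) ^ 2 * (1 + (N k : ℝ)) ^ 2) := by gcongr
      _ = _ := by ring
  have hP : (0 : ℝ) < (1 + (k 0 : ℝ) ^ 2) * ((1 + (k 1 : ℝ) ^ 2) * (1 + (k 2 : ℝ) ^ 2)) := by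
    positivity
  have e : Pk k = 1 / ((1 + (k 0 : ℝ) ^ 2) * ((1 + (k 1 : ℝ) ^ 2) * (1 + (k 2 : ℝ) ^ 2))) := by
    unfold Pk; field_simp
  rw [e, div_mul_eq_mul_div, one_mul, le_div_iff₀ hP, one_mul]
  exact hprod

theorem nk_le_N (k : K3) : 1 + nk k ≤ 2 * (1 + (N k : ℝ)) := by
  have hN : (0 : ℝ) ≤ N k := by positivity
  have h : nk k ≤ 2 * (N k : ℝ) := by
    unfold nk
    rw [Real.sqrt_le_left (by positivity), Fin.sum_univ_three]
    have hj : ∀ j, (k j : ℝ) ^ 2 ≤ (N k : ℝ) ^ 2 := by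
      intro j
      have h := (N_le_iff k (N k)).1 le_rfl j
      have h1 : |(k j : ℝ)| ≤ N k := by exact_mod_cast h
      rw [← sq_abs (k j : ℝ)]
      gcongr
    have h0 := hj 0
    have h1 := hj 1
    have h2 := hj 2
    nlinarith
  linarith

/-- Uniform domination on `[0, t1]`. -/
theorem dom (h : IsSol ν T u p) {t1 : ℝ} (ht1 : t1 < T) :
    ∃ M : ℝ, 0 ≤ M ∧ ∀ s ∈ Icc 0 t1, ∀ k, (1 + nk k) * ‖uh (u s) k‖ ≤ M * Pk k := by
  have hper : ∀ i, ∀ t ∈ Ico 0 T, Per (fun x => u t x i) := fun i t ht => (h.sp ht i).per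
  choose C0 hC00 hC0 using fun i => sup_N (F := fun s x => u s x i) (h.smooth_c i) (hper i) ht1 0
  choose C7 hC70 hC7 using fun i => sup_N (F := fun s x => u s x i) (h.smooth_c i) (hper i) ht1 7
  refine ⟨∑ i, 256 * (C0 i + C7 i), Finset.sum_nonneg fun i _ => by
    have := hC00 i; have := hC70 i; positivity, fun s hs k => ?_⟩
  have hN : (0 : ℝ) ≤ N k := by positivity
  have hi : ∀ i, (1 + nk k) * ‖fr (fun x => u s x i) k‖ ≤ 256 * (C0 i + C7 i) * Pk k := by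
    intro i
    set a := ‖fr (fun x => u s x i) k‖ with ha
    have ha0 : 0 ≤ a := norm_nonneg _
    have h0 := hC0 i s hs k
    have h7 := hC7 i s hs k
    rw [← ha] at h0 h7
    have h2 : (1 + (N k : ℝ)) ^ 7 ≤ 128 * (1 + (N k : ℝ) ^ 7) := by
      rcases le_total (N k : ℝ) 1 with h | h
      · have : (1 + (N k : ℝ)) ^ 7 ≤ (1 + 1) ^ 7 := by gcongr
        nlinarith [pow_nonneg hN 7]
      · have : (1 + (N k : ℝ)) ^ 7 ≤ ((N k : ℝ) + (N k : ℝ)) ^ 7 := by gcongr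
        have e : ((N k : ℝ) + (N k : ℝ)) ^ 7 = 128 * (N k : ℝ) ^ 7 := by ring
        linarith
    have h3 : (1 + (N k : ℝ)) ^ 7 * a ≤ 128 * (C0 i + C7 i) := by
      calc (1 + (N k : ℝ)) ^ 7 * a ≤ (128 * (1 + (N k : ℝ) ^ 7)) * a := by gcongr
        _ = 128 * ((N k : ℝ) ^ 0 * a + (N k : ℝ) ^ 7 * a) := by ring
        _ ≤ 128 * (C0 i + C7 i) := by linarith
    have h4 := nk_le_N k
    have h5 := one_le_Pk k
    have hP := Pk_pos k
    calc (1 + nk k) * a ≤ 2 * (1 + (N k : ℝ)) * a := by gcongr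
      _ = 2 * (1 + (N k : ℝ)) * a * 1 := by ring
      _ ≤ 2 * (1 + (N k : ℝ)) * a * (Pk k * (1 + (N k : ℝ)) ^ 6) := by gcongr
      _ = 2 * Pk k * ((1 + (N k : ℝ)) ^ 7 * a) := by ring
      _ ≤ 2 * Pk k * (128 * (C0 i + C7 i)) := by gcongr
      _ = _ := by ring
  have hk0 : 0 ≤ 1 + nk k := by have := nk_nonneg k; linarith
  calc (1 + nk k) * ‖uh (u s) k‖ ≤ (1 + nk k) * ∑ i, ‖uh (u s) k i‖ :=
        mul_le_mul_of_nonneg_left (norm_le_sum _) hk0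
    _ = ∑ i, (1 + nk k) * ‖fr (fun x => u s x i) k‖ := by rw [Finset.mul_sum]; rfl
    _ ≤ ∑ i, 256 * (C0 i + C7 i) * Pk k := Finset.sum_le_sum fun i _ => hi i
    _ = _ := by rw [Finset.sum_mul]

theorem dom' (h : IsSol ν T u p) {t1 : ℝ} (ht1 : t1 < T) :
    ∃ M : ℝ, 0 ≤ M ∧ ∀ s ∈ Icc 0 t1, ∀ k, ‖uh (u s) k‖ ≤ M * Pk k ∧
      nk k * ‖uh (u s) k‖ ≤ M * Pk k := by
  obtain ⟨M, hM0, hM⟩ := dom h ht1
  refine ⟨M, hM0, fun s hs k => ?_⟩
  have h1 := hM s hs k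
  have h2 := nk_nonneg k
  have h3 : 0 ≤ ‖uh (u s) k‖ := norm_nonneg _
  have h4 := mul_nonneg h2 h3
  constructor <;> nlinarith

theorem continuousOn_uh (h : IsSol ν T u p) (k : K3) : ContinuousOn (fun s => uh (u s) k) (Ico 0 T) := by
  have : ContinuousOn (fun s => fun i => fr (fun x => u s x i) k) (Ico 0 T) :=
    continuousOn_pi.2 fun i => continuousOn_fr (h.smooth_c i).continuousOn k
  exact (PiLp.continuous_toLp 2 _).comp_continuousOn this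

end Pool.Agent.W909.NS
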