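import Pool.Agent.W909.NS.Sum

/-!
# The comparison argument and the blow-up inequality
-/

set_option autoImplicit false

open MeasureTheory Set Filter Topology H459R3.NS
open scoped ContDiff ENNReal

namespace Pool.Agent.W909.NS

variable {ν T : ℝ} {u : ℝ → V → V} {p : ℝ → V → ℝ}

/-- `∑ |û(t0,k)|` over the `k ≠ 0` in `Q`. -/
noncomputable def AA (u : ℝ → V → V) (t0 : ℝ) (Q : Set K3) : ℝ :=
  ∑' k, if k = 0 then 0 else ‖qq u t0 Q k‖

theorem pointwise {A Y R X K : ℝ} (_hA : 0 ≤ A) (_hY : 0 ≤ Y) (hR : 0 ≤ R) (hX : 0 ≤ X)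
    (hRK : R < K) (hYR : Y ^ 2 ≤ R * X) : (A + Y) ^ 2 ≤ A ^ 2 * K / (K - R) + K * X := by
  have hδ : 0 < K - R := sub_pos.2 hRK
  have h1 : 2 * A * Y ≤ A ^ 2 * R / (K - R) + (K - R) * X := by
    refine abs_le_of_sq_le_sq' ?_ (by positivity) |>.2
    have h2 : (2 * A * Y) ^ 2 ≤ 4 * A ^ 2 * (R * X) := by
      calc (2 * A * Y) ^ 2 = 4 * A ^ 2 * Y ^ 2 := by ring
        _ ≤ 4 * A ^ 2 * (R * X) := by gcongr
    refine h2.trans ?_
    have h3 : A ^ 2 * R / (K - R) * ((K - R) * X) = A ^ 2 * (R * X) := by field_simp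
    nlinarith [sq_nonneg (A ^ 2 * R / (K - R) - (K - R) * X)]
  have e : A ^ 2 * K / (K - R) = A ^ 2 + A ^ 2 * R / (K - R) := by
    field_simp; ring
  rw [e]
  nlinarith

theorem cs_of_forall {Y R X : ℝ} (hY : 0 ≤ Y) (hR : 0 ≤ R) (hX : 0 ≤ X)
    (h : ∀ l : ℝ, 0 < l → 2 * l * Y ≤ R + l ^ 2 * X) : Y ^ 2 ≤ R * X := by
  rcases eq_or_lt_of_le hX with h0 | h0
  · rcases eq_or_lt_of_le hY with h1 | h1
    · rw [← h1, ← h0]; simp
    · exfalso
      have := h ((R + 1) / Y) (by positivity)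
      rw [← h0] at this
      have e : 2 * ((R + 1) / Y) * Y = 2 * (R + 1) := by field_simp
      rw [e] at this
      linarith
  · rcases eq_or_lt_of_le hY with h1 | h1
    · rw [← h1]
      have := mul_nonneg hR hX
      simpa using this
    · have := h (Y / X) (by positivity)
      have e : 2 * (Y / X) * Y = 2 * Y ^ 2 / X := by ring
      have e2 : (Y / X) ^ 2 * X = Y ^ 2 / X := by field_simp
      rw [e, e2] at this
      have h3 : Y ^ 2 / X ≤ R := by
        have : 2 * Y ^ 2 / X = Y ^ 2 / X + Y ^ 2 / X := by ring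
        linarith
      rwa [div_le_iff₀ h0] at h3

section

variable (h : IsSol ν T u p) (hν : 0 < ν) {t0 : ℝ} (ht0 : t0 ∈ Ico 0 T) (Q : Set K3)

include h hν ht0 in
/-- the continuity of the sums -/
theorem cont_all {t1 : ℝ} (ht1 : t1 < T) (h01 : t0 ≤ t1) :
    ContinuousOn (RR ν u t0 Q) (Icc t0 t1) ∧ ContinuousOn (XX ν u t0 Q) (Icc t0 t1) ∧
      ContinuousOn (WW u) (Icc t0 t1) := by
  obtain ⟨M, hM0, hM⟩ := yy_dom h hν ht0 Q ht1 h01
  have hsub : Icc t0 t1 ⊆ Ico 0 T := fun s hs => ⟨ht0.1.trans hs.1, hs.2.trans_lt ht1⟩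
  have hPs : Summable fun k => M * Pk k := summable_Pk.mul_left M
  have hyc : ∀ k, ContinuousOn (yy ν u t0 Q k) (Icc t0 t1) := fun k =>
    (yy_continuousOn h Q k).mono hsub
  refine ⟨?_, ?_, ?_⟩
  · refine continuousOn_tsum (fun k => (hyc k).div_const _) hPs fun k s hs => ?_
    rw [Real.norm_eq_abs, abs_of_nonneg (div_nonneg (yy_nonneg Q k s) (nk_nonneg k))]
    exact (hM s hs k).2.2.1
  · refine continuousOn_tsum (fun k => continuousOn_const.mul (hyc k)) hPs fun k s hs => ?_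
    rw [Real.norm_eq_abs, abs_of_nonneg (mul_nonneg (nk_nonneg k) (yy_nonneg Q k s))]
    exact (hM s hs k).2.1
  · refine continuousOn_tsum (fun k => (wt_continuousOn h k).mono hsub) hPs fun k s hs => ?_
    rw [Real.norm_eq_abs, abs_of_nonneg (wt_nonneg _ _)]
    exact (hM s hs k).2.2.2

theorem RR_nonneg (s : ℝ) : 0 ≤ RR ν u t0 Q s :=
  tsum_nonneg fun k => div_nonneg (yy_nonneg Q k s) (nk_nonneg k)

theorem XX_nonneg (s : ℝ) : 0 ≤ XX ν u t0 Q s :=
  tsum_nonneg fun k => mul_nonneg (nk_nonneg k) (yy_nonneg Q k s)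

theorem YY_nonneg (s : ℝ) : 0 ≤ YY ν u t0 Q s := tsum_nonneg fun k => yy_nonneg Q k s

theorem AA_nonneg : 0 ≤ AA u t0 Q := tsum_nonneg fun k => by
  split_ifs
  · exact le_rfl
  · exact norm_nonneg _

theorem WW_nonneg (s : ℝ) : 0 ≤ WW u s := tsum_nonneg fun k => wt_nonneg _ _

include h ht0 in
theorem summable_AA : Summable fun k => if k = 0 then 0 else ‖qq u t0 Q k‖ := by
  refine Summable.of_nonneg_of_le (fun k => ?_) (fun k => ?_) (summable_uh (fun i => h.sp ht0 i))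
  · split_ifs
    · exact le_rfl
    · exact norm_nonneg _
  · split_ifs
    · exact norm_nonneg _
    · exact norm_qq_le Q k

include h hν ht0 in
theorem WW_le {s : ℝ} (hs : s ∈ Ico t0 T) : WW u s ≤ AA u t0 Q + YY ν u t0 Q s := by
  obtain ⟨M, hM0, hM⟩ := yy_dom h hν ht0 Q hs.2 hs.1
  have hPs : Summable fun k => M * Pk k := summable_Pk.mul_left M
  have hmem : s ∈ Icc t0 s := ⟨hs.1, le_rfl⟩
  have s1 : Summable fun k => yy ν u t0 Q k s :=
    Summable.of_nonneg_of_le (fun k => yy_nonneg Q k s) (fun k => (hM s hmem k).1) hPs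
  have s2 : Summable (wt (u s)) :=
    Summable.of_nonneg_of_le (wt_nonneg _) (fun k => (hM s hmem k).2.2.2) hPs
  unfold WW AA YY
  rw [← (summable_AA h ht0 Q).tsum_add s1]
  refine s2.tsum_le_tsum (fun k => ?_) ((summable_AA h ht0 Q).add s1)
  by_cases hk : k = 0
  · subst hk; simp [wt_zero, yy]
  · rw [wt_ne hk, if_neg hk]
    have e : yy ν u t0 Q k s = ‖rr ν u t0 k (qq u t0 Q k) s‖ := by simp [yy, hk]
    rw [e]
    have h1 : uh (u s) k = rr ν u t0 k (qq u t0 Q k) s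
        + Ev ν (uh (u t0) 0) k (qq u t0 Q k) (s - t0) := by rw [rr]; abel
    have h2 := norm_Ev_le hν (u t0) k (qq u t0 Q k) (sub_nonneg.2 hs.1)
    have h3 := norm_add_le (rr ν u t0 k (qq u t0 Q k) s)
      (Ev ν (uh (u t0) 0) k (qq u t0 Q k) (s - t0))
    rw [← h1] at h3
    linarith

include h hν ht0 in
theorem YY_sq {s : ℝ} (hs : s ∈ Ico t0 T) : YY ν u t0 Q s ^ 2 ≤ RR ν u t0 Q s * XX ν u t0 Q s := by
  obtain ⟨M, hM0, hM⟩ := yy_dom h hν ht0 Q hs.2 hs.1
  have hPs : Summable fun k => M * Pk k := summable_Pk.mul_left M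
  have hmem : s ∈ Icc t0 s := ⟨hs.1, le_rfl⟩
  have s1 : Summable fun k => yy ν u t0 Q k s :=
    Summable.of_nonneg_of_le (fun k => yy_nonneg Q k s) (fun k => (hM s hmem k).1) hPs
  have s2 : Summable fun k => yy ν u t0 Q k s / nk k :=
    Summable.of_nonneg_of_le (fun k => div_nonneg (yy_nonneg Q k s) (nk_nonneg k))
      (fun k => (hM s hmem k).2.2.1) hPs
  have s3 : Summable fun k => nk k * yy ν u t0 Q k s :=
    Summable.of_nonneg_of_le (fun k => mul_nonneg (nk_nonneg k) (yy_nonneg Q k s))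
      (fun k => (hM s hmem k).2.1) hPs
  refine cs_of_forall (YY_nonneg Q s) (RR_nonneg Q s) (XX_nonneg Q s) fun l hl => ?_
  unfold YY RR XX
  rw [← tsum_mul_left, ← tsum_mul_left, ← s2.tsum_add (s3.mul_left _)]
  refine (s1.mul_left _).tsum_le_tsum (fun k => ?_) (s2.add (s3.mul_left _))
  by_cases hk : k = 0
  · simp [yy, hk]
  · have hn := nk_pos hk
    have hy := yy_nonneg (ν := ν) (u := u) (t0 := t0) Q k s
    have h1 : 2 * l ≤ 1 / nk k + l ^ 2 * nk k := by
      have : 1 / nk k + l ^ 2 * nk k - 2 * l = (1 - l * nk k) ^ 2 / nk k := by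
        field_simp; ring
      have h2 : 0 ≤ (1 - l * nk k) ^ 2 / nk k := by positivity
      linarith
    calc 2 * l * yy ν u t0 Q k s ≤ (1 / nk k + l ^ 2 * nk k) * yy ν u t0 Q k s := by gcongr
      _ = _ := by ring

include h hν ht0 in
/-- The comparison argument. -/
theorem compare {c' : ℝ} (hc : RR ν u t0 Q t0 < c') (hcK : c' < 4 * Real.pi * ν) {t1 : ℝ}
    (h01 : t0 ≤ t1) (ht1 : t1 < T)
    (hB : 2 * Real.pi * (4 * Real.pi * ν) * AA u t0 Q ^ 2 * (t1 - t0) < (4 * Real.pi * ν - c') ^ 2) :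
    ∀ s ∈ Icc t0 t1, RR ν u t0 Q s ≤ 4 * Real.pi * ν
      - Real.sqrt ((4 * Real.pi * ν - c') ^ 2
        - 2 * Real.pi * (4 * Real.pi * ν) * AA u t0 Q ^ 2 * (s - t0)) := by
  set K : ℝ := 4 * Real.pi * ν with hK
  set A : ℝ := AA u t0 Q with hA
  have hK0 : 0 < K := by have := Real.pi_pos; positivity
  have hA0 : 0 ≤ A := AA_nonneg Q
  set B : ℝ → ℝ := fun s => (K - c') ^ 2 - 2 * Real.pi * K * A ^ 2 * (s - t0) with hBdef
  have hB0 : ∀ s ∈ Icc t0 t1, 0 < B s := by
    intro s hs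
    have h1 : 0 ≤ 2 * Real.pi * K * A ^ 2 := by have := Real.pi_pos; positivity
    have h2 := mul_le_mul_of_nonneg_left (sub_le_sub_right hs.2 t0) h1
    simp only [hBdef]
    linarith
  set ρ : ℝ → ℝ := fun s => K - Real.sqrt (B s) with hρ
  have hBd : ∀ s, HasDerivAt B (-(2 * Real.pi * K * A ^ 2)) s := by
    intro s
    have := (((hasDerivAt_id s).sub_const t0).const_mul (2 * Real.pi * K * A ^ 2)).const_sub
      ((K - c') ^ 2)
    simpa using this
  have hBc : Continuous B := continuous_iff_continuousAt.2 fun s => (hBd s).continuousAt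
  have hρc : Continuous ρ := continuous_const.sub (Real.continuous_sqrt.comp hBc)
  have hρd : ∀ s ∈ Icc t0 t1, HasDerivAt ρ (Real.pi * (A ^ 2 * K / Real.sqrt (B s))) s := by
    intro s hs
    have h1 := ((hBd s).sqrt (hB0 s hs).ne').const_sub K
    refine h1.congr_deriv ?_
    have := Real.sqrt_pos.2 (hB0 s hs)
    field_simp
  obtain ⟨hRc, hXc, hWc⟩ := cont_all h hν ht0 Q ht1 h01
  by_contra hne
  push Not at hne
  obtain ⟨s1, hs1, hs1'⟩ := hne
  set S : Set ℝ := {s ∈ Icc t0 t1 | ρ s ≤ RR ν u t0 Q s} with hS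
  have hScl : IsClosed S := by
    have := (hRc.sub hρc.continuousOn).preimage_isClosed_of_isClosed isClosed_Icc
      (isClosed_Ici (a := (0 : ℝ)))
    convert this using 1
    ext s
    simp [hS]
  have hSne : S.Nonempty := ⟨s1, hs1, hs1'.le⟩
  have hSb : BddBelow S := ⟨t0, fun s hs => hs.1.1⟩
  set a := sInf S with ha
  have haS : a ∈ S := hScl.csInf_mem hSne hSb
  obtain ⟨haI, haρ⟩ := haS
  have hρ0 : ρ t0 = c' := by
    simp only [hρ, hBdef, sub_self, mul_zero, sub_zero]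
    rw [Real.sqrt_sq (by linarith)]
    ring
  have hat : t0 < a := by
    rcases eq_or_lt_of_le haI.1 with h0 | h0
    · rw [← h0, hρ0] at haρ
      linarith
    · exact h0
  have hlt : ∀ s ∈ Ico t0 a, RR ν u t0 Q s < ρ s := by
    intro s hs
    by_contra hc
    push Not at hc
    have : s ∈ S := ⟨⟨hs.1, hs.2.le.trans haI.2⟩, hc⟩
    exact absurd (csInf_le hSb this) (not_le.2 hs.2)
  have hsubI : Icc t0 a ⊆ Icc t0 t1 := Icc_subset_Icc_right haI.2
  have haT : a ∈ Ico t0 T := ⟨haI.1, haI.2.trans_lt ht1⟩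
  have h1 := sum_ineq h hν ht0 Q haT
  have iW : IntervalIntegrable (fun s => WW u s ^ 2) volume t0 a :=
    ((hWc.mono hsubI).pow 2).intervalIntegrable_of_Icc haI.1
  have iX : IntervalIntegrable (XX ν u t0 Q) volume t0 a :=
    (hXc.mono hsubI).intervalIntegrable_of_Icc haI.1
  have iρ : IntervalIntegrable (fun s => Real.pi * (A ^ 2 * K / Real.sqrt (B s))) volume t0 a := by
    refine ContinuousOn.intervalIntegrable_of_Icc haI.1 ?_
    refine continuousOn_const.mul (continuousOn_const.div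
      (Real.continuous_sqrt.comp hBc).continuousOn fun s hs => ?_)
    exact (Real.sqrt_pos.2 (hB0 s (hsubI hs))).ne'
  have h2 : ∫ s in t0..a, Real.pi * (A ^ 2 * K / Real.sqrt (B s)) = ρ a - ρ t0 :=
    intervalIntegral.integral_eq_sub_of_hasDerivAt
      (fun s hs => hρd s (hsubI (by rwa [uIcc_of_le haI.1] at hs))) iρ
  have h3 : ∫ s in t0..a, (Real.pi * WW u s ^ 2 - Real.pi * K * XX ν u t0 Q s)
      ≤ ∫ s in t0..a, Real.pi * (A ^ 2 * K / Real.sqrt (B s)) := by
    refine intervalIntegral.integral_mono_on_of_le_Ioo haI.1 ((iW.const_mul _).sub (iX.const_mul _))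
      iρ fun s hs => ?_
    have hsT : s ∈ Ico t0 T := ⟨hs.1.le, hs.2.trans (haI.2.trans_lt ht1)⟩
    have hsI : s ∈ Icc t0 t1 := hsubI ⟨hs.1.le, hs.2.le⟩
    have hR := hlt s ⟨hs.1.le, hs.2⟩
    have hsq := Real.sqrt_pos.2 (hB0 s hsI)
    have hRK : RR ν u t0 Q s < K := by
      have : ρ s = K - Real.sqrt (B s) := rfl
      linarith
    have hW := WW_le h hν ht0 Q hsT
    have hW2 : WW u s ^ 2 ≤ (A + YY ν u t0 Q s) ^ 2 := by
      have := WW_nonneg (u := u) s
      gcongr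
    have hp := pointwise hA0 (YY_nonneg Q s) (RR_nonneg Q s) (XX_nonneg Q s) hRK
      (YY_sq h hν ht0 Q hsT)
    have hd : A ^ 2 * K / (K - RR ν u t0 Q s) ≤ A ^ 2 * K / Real.sqrt (B s) := by
      refine div_le_div_of_nonneg_left (by positivity) hsq ?_
      have : ρ s = K - Real.sqrt (B s) := rfl
      linarith
    have hpi := Real.pi_pos
    have := mul_le_mul_of_nonneg_left (hW2.trans (hp.trans (add_le_add hd le_rfl))) hpi.le
    linarith
  rw [intervalIntegral.integral_sub (iW.const_mul _) (iX.const_mul _),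
    intervalIntegral.integral_const_mul, intervalIntegral.integral_const_mul, h2, hρ0] at h3
  have h4 : 4 * Real.pi ^ 2 * ν = Real.pi * K := by rw [hK]; ring
  rw [h4] at h1
  linarith

end

end Pool.Agent.W909.NS
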