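import Pool.Agent.H459R3.NS.Iso
import Pool.Agent.W909.NS.Fin

/-!
# The blow-up inequality
-/

set_option autoImplicit false

open MeasureTheory Set Filter Topology H459R3.NS
open scoped ContDiff ENNReal

namespace Pool.Agent.W909.NS

variable {ν T : ℝ} {u : ℝ → V → V} {p : ℝ → V → ℝ}

/-- `|u_i(t,x)|` is at most the sum of the absolute values of the Fourier coefficients. -/
theorem abs_le_WW {v : V → V} (hv : ∀ i, SP (fun x => v x i)) (x : V) (i : Fin 3) :
    |v x i| ≤ ‖uh v 0‖ + ∑' k, wt v k := by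
  have h1 := norm_S_le (rap_fr (hv i)).summable x
  rw [S_fr (hv i), Complex.norm_real, Real.norm_eq_abs] at h1
  refine h1.trans ?_
  have hs : Summable fun k : K3 => if k = 0 then ‖uh v 0‖ else 0 :=
    summable_of_hasFiniteSupport ((Set.finite_singleton (0 : K3)).subset fun k hk => by
      by_contra h
      exact hk (if_neg h))
  have e : ∑' k : K3, (if k = 0 then ‖uh v 0‖ else 0) = ‖uh v 0‖ := tsum_ite_eq 0 _
  rw [← e, ← hs.tsum_add (summable_wt hv)]
  refine (rap_fr (hv i)).summable.norm.tsum_le_tsum (fun k => ?_) (hs.add (summable_wt hv))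
  have h2 : ‖fr (fun x => v x i) k‖ ≤ ‖uh v k‖ := comp_le_norm (uh v k) i
  by_cases hk : k = 0
  · subst hk; rw [if_pos rfl, wt_zero, add_zero]; exact h2
  · rw [if_neg hk, wt_ne hk, zero_add]; exact h2

/-- If `∫ (∑ |û|)² < ∞` then the velocity is bounded. -/
theorem bounded_of_WW (h : IsSol ν T u p) (hν : 0 < ν) {t0 : ℝ} (ht0 : t0 ∈ Ico 0 T) {C : ℝ}
    (hC : ∀ t ∈ Ico t0 T, ∫ s in t0..t, WW u s ^ 2 ≤ C) :
    ∃ M, ∀ t ∈ Ico 0 T, ∀ x i, |u t x i| ≤ M := by
  have hT : 0 < T := ht0.1.trans_lt ht0.2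
  have h0T : (0 : ℝ) ∈ Ico 0 T := ⟨le_rfl, hT⟩
  -- continuity of `WW` on `[0, T)`
  have hWc : ContinuousOn (WW u) (Ico 0 T) := by
    intro s hs
    obtain ⟨b, hb1, hb2⟩ := exists_between hs.2
    have h1 := (cont_all h hν h0T ∅ hb2 (hs.1.trans hb1.le)).2.2
    refine (h1 s ⟨hs.1, hb1.le⟩).mono_of_mem_nhdsWithin ?_
    have : Iio b ∈ 𝓝 s := Iio_mem_nhds hb1
    filter_upwards [self_mem_nhdsWithin, nhdsWithin_le_nhds this] with r hr hr2
    exact ⟨hr.1, hr2.le⟩
  set m0 : ℝ := ‖uh (u 0) 0‖ with hm0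
  have hm : ∀ s ∈ Ico 0 T, ‖uh (u s) 0‖ = m0 := fun s hs => by rw [mean_const h hs h0T]
  set β : ℝ → ℝ := fun s => m0 + WW u s with hβ
  have hβ0 : ∀ s, 0 ≤ β s := fun s => add_nonneg (norm_nonneg _) (WW_nonneg s)
  have hβc : ContinuousOn β (Ico 0 T) := continuousOn_const.add hWc
  -- integrability
  have hint : ∀ t ∈ Ico 0 T, IntervalIntegrable (fun s => WW u s ^ 2) volume 0 t := fun t ht =>
    ((hWc.mono fun s hs => ⟨hs.1, hs.2.trans_lt ht.2⟩).pow 2).intervalIntegrable_of_Icc ht.1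
  set C' : ℝ := (∫ s in (0 : ℝ)..t0, WW u s ^ 2) + max C 0 with hC'
  have hW2 : ∀ t ∈ Ico 0 T, ∫ s in (0 : ℝ)..t, WW u s ^ 2 ≤ C' := by
    intro t ht
    rcases le_total t t0 with h1 | h1
    · have h2 : ∫ s in (0 : ℝ)..t, WW u s ^ 2 ≤ ∫ s in (0 : ℝ)..t0, WW u s ^ 2 := by
        rw [← intervalIntegral.integral_add_adjacent_intervals (hint t ht)
          ((hint t ht).symm.trans (hint t0 ht0))]
        have : 0 ≤ ∫ s in t..t0, WW u s ^ 2 :=
          intervalIntegral.integral_nonneg h1 fun s _ => sq_nonneg _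
        linarith
      have := le_max_right C 0
      linarith
    · have h2 := hC t ⟨h1, ht.2⟩
      rw [← intervalIntegral.integral_add_adjacent_intervals (hint t0 ht0)
          ((hint t0 ht0).symm.trans (hint t ht))]
      have := le_max_left C 0
      linarith
  have hβ2 : IntegrableOn (fun s => β s ^ (2 : ℝ)) (Ioo 0 T) := by
    have e : (fun s => β s ^ (2 : ℝ)) = fun s => β s ^ 2 := by
      funext s; exact Real.rpow_two _
    rw [e]
    refine IntegrableOn.mono_set ?_ Ioo_subset_Ioc_self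
    obtain ⟨b, hbmono, hblt, hbt⟩ := exists_seq_strictMono_tendsto' hT
    have hb : ∀ n, b n ∈ Ico 0 T := fun n => ⟨(hblt n).1.le, (hblt n).2⟩
    have hβi : ∀ n, IntervalIntegrable (fun s => β s ^ 2) volume 0 (b n) := fun n =>
      ((hβc.mono fun s hs => ⟨hs.1, hs.2.trans_lt (hb n).2⟩).pow 2).intervalIntegrable_of_Icc
        (hb n).1
    refine integrableOn_Ioc_of_intervalIntegral_norm_bounded_right (l := atTop) (b := b)
      (I := 2 * m0 ^ 2 * T + 2 * C') (fun n => ?_) hbt (Eventually.of_forall fun n => ?_)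
    · exact (intervalIntegrable_iff_integrableOn_Ioc_of_le (hb n).1).1 (hβi n)
    · rw [← intervalIntegral.integral_of_le (hb n).1]
      have h1 : ∀ s, ‖β s ^ 2‖ = β s ^ 2 := fun s => by
        rw [Real.norm_eq_abs, abs_of_nonneg (sq_nonneg _)]
      simp only [h1]
      have h2 : ∫ s in (0 : ℝ)..b n, β s ^ 2 ≤ ∫ s in (0 : ℝ)..b n, (2 * m0 ^ 2 + 2 * WW u s ^ 2) := by
        refine intervalIntegral.integral_mono_on (hb n).1 (hβi n)
          (by have := (hint (b n) (hb n)).const_mul 2; exact (by simp : IntervalIntegrable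
            (fun _ => 2 * m0 ^ 2) volume 0 (b n)).add this) fun s _ => ?_
        simp only [hβ]
        nlinarith [sq_nonneg (m0 - WW u s)]
      rw [intervalIntegral.integral_add (by simp) ((hint (b n) (hb n)).const_mul 2),
        intervalIntegral.integral_const, intervalIntegral.integral_const_mul, smul_eq_mul] at h2
      have h3 := hW2 (b n) (hb n)
      have h4 : (b n - 0) * (2 * m0 ^ 2) ≤ T * (2 * m0 ^ 2) := by
        have := (hb n).2
        gcongr
        linarith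
      linarith
  obtain ⟨C1, -, hC1⟩ := serrin (p := ⊤) (by simp) (q := 2) (by simp) (K := 0) (lam := 0) (κ := 0)
    hν le_rfl le_rfl (by norm_num)
  refine (hC1 T 0 u p β (fun _ => 0) h le_rfl (fun t _ => ⟨hβ0 t, le_rfl⟩) hβ2 (by simp)
    fun t ht => ?_).2
  have hI : t ∈ Ico 0 T := ⟨ht.1.le, ht.2⟩
  refine ⟨fun _ => 0, fun _ => 0, ∅, SPV.zero, SPV.zero, ?_, ?_, ?_, ?_, ?_, ?_, fun i => ?_⟩
  · intro x r _
    simp
  · intro i k _
    exact fr_zero k
  · rw [enstrophy_zero]; simp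
  · have : palin (fun _ => 0) = 0 := by
      unfold palin lap pd
      simp
    rw [this]; simp
  · rw [enstrophy_zero]; simp
  · have : stretch (fun _ => 0) = 0 := by
      unfold stretch pd
      simp
    rw [this]; simp
  · rw [eLpNorm_exponent_top]
    refine eLpNormEssSup_le_of_ae_bound (Eventually.of_forall fun x => ?_)
    simp only [Pi.zero_apply, sub_zero]
    rw [Real.norm_eq_abs]
    refine (abs_le_WW (fun i => h.sp hI i) x i).trans ?_
    rw [hm t hI]
    exact le_rfl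

/-- The inequality at a blow-up time. -/
theorem blowup (h : IsSol ν T u p) (hν : 0 < ν)
    (hb : ¬ ∃ M, ∀ t ∈ Ico 0 T, ∀ x i, |u t x i| ≤ M) {t0 : ℝ} (ht0 : t0 ∈ Ico 0 T) (Q : Set K3)
    (hR : RR ν u t0 Q t0 < 4 * Real.pi * ν) :
    (4 * Real.pi * ν - RR ν u t0 Q t0) ^ 2
      ≤ 2 * Real.pi * (4 * Real.pi * ν) * AA u t0 Q ^ 2 * (T - t0) := by
  by_contra hne
  push Not at hne
  apply hb
  set K : ℝ := 4 * Real.pi * ν with hK
  set A : ℝ := AA u t0 Q with hA
  set c : ℝ := RR ν u t0 Q t0 with hc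
  have hpi := Real.pi_pos
  have hK0 : 0 < K := by positivity
  have hA0 : 0 ≤ A := AA_nonneg Q
  -- a number `c'` between `c` and `K`
  obtain ⟨c', hc1, hc2, hc3⟩ : ∃ c', c < c' ∧ c' < K ∧
      2 * Real.pi * K * A ^ 2 * (T - t0) < (K - c') ^ 2 := by
    have hcont : ContinuousAt (fun x : ℝ => (K - x) ^ 2) c := by fun_prop
    have hev : ∀ᶠ x in 𝓝 c, 2 * Real.pi * K * A ^ 2 * (T - t0) < (K - x) ^ 2 :=
      hcont.eventually (lt_mem_nhds hne)
    have hev2 : ∀ᶠ x in 𝓝[>] c, 2 * Real.pi * K * A ^ 2 * (T - t0) < (K - x) ^ 2 :=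
      nhdsWithin_le_nhds hev
    have hev3 : ∀ᶠ x in 𝓝[>] c, x < K := nhdsWithin_le_nhds (Iio_mem_nhds hR)
    obtain ⟨x, hx1, hx2, hx3⟩ := (hev2.and (hev3.and self_mem_nhdsWithin)).exists
    exact ⟨x, hx3, hx2, hx1⟩
  set b : ℝ := Real.sqrt ((K - c') ^ 2 - 2 * Real.pi * K * A ^ 2 * (T - t0)) with hb'
  have hb0 : 0 < b := Real.sqrt_pos.2 (by linarith)
  have hRle : ∀ s ∈ Ico t0 T, RR ν u t0 Q s ≤ K - b := by
    intro s hs
    have h1 : 0 ≤ 2 * Real.pi * K * A ^ 2 := by positivity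
    have h2 := compare h hν ht0 Q hc1 hc2 hs.1 hs.2 (by
      have := mul_le_mul_of_nonneg_left (sub_le_sub_right hs.2.le t0) h1
      linarith) s ⟨hs.1, le_rfl⟩
    refine h2.trans ?_
    have h3 : b ≤ Real.sqrt ((K - c') ^ 2 - 2 * Real.pi * K * A ^ 2 * (s - t0)) := by
      apply Real.sqrt_le_sqrt
      have := mul_le_mul_of_nonneg_left (sub_le_sub_right hs.2.le t0) h1
      linarith
    linarith
  -- the integral of `XX`
  set K' : ℝ := K - b / 2 with hK'
  have hpt : ∀ s ∈ Ico t0 T, WW u s ^ 2 ≤ A ^ 2 * K' / (b / 2) + K' * XX ν u t0 Q s := by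
    intro s hs
    have h1 := hRle s hs
    have h2 : RR ν u t0 Q s < K' := by rw [hK']; linarith
    have h3 := pointwise hA0 (YY_nonneg Q s) (RR_nonneg Q s) (XX_nonneg Q s) h2
      (YY_sq h hν ht0 Q hs)
    have hW := WW_le h hν ht0 Q hs
    have hW2 : WW u s ^ 2 ≤ (A + YY ν u t0 Q s) ^ 2 := by
      have := WW_nonneg (u := u) s
      gcongr
    refine hW2.trans (h3.trans (add_le_add ?_ le_rfl))
    have hK'0 : 0 ≤ K' := (RR_nonneg Q s).trans h2.le
    refine div_le_div_of_nonneg_left (by positivity) (by linarith) ?_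
    rw [hK']; linarith
  have hK'0 : 0 ≤ K' := (RR_nonneg Q t0).trans (by
    have := hRle t0 ⟨le_rfl, ht0.2⟩
    rw [hK']; linarith)
  set G : ℝ := A ^ 2 * K' / (b / 2) with hG
  have hG0 : 0 ≤ G := by positivity
  have hX : ∀ t ∈ Ico t0 T, Real.pi * (b / 2) * ∫ s in t0..t, XX ν u t0 Q s
      ≤ c + Real.pi * G * (T - t0) := by
    intro t ht
    obtain ⟨hRc, hXc, hWc⟩ := cont_all h hν ht0 Q ht.2 ht.1
    have iW : IntervalIntegrable (fun s => WW u s ^ 2) volume t0 t :=
      (hWc.pow 2).intervalIntegrable_of_Icc ht.1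
    have iX : IntervalIntegrable (XX ν u t0 Q) volume t0 t := hXc.intervalIntegrable_of_Icc ht.1
    have h1 := sum_ineq h hν ht0 Q ht
    have h2 : ∫ s in t0..t, WW u s ^ 2 ≤ ∫ s in t0..t, (G + K' * XX ν u t0 Q s) :=
      intervalIntegral.integral_mono_on ht.1 iW ((by simp : IntervalIntegrable (fun _ => G) volume
        t0 t).add (iX.const_mul _)) fun s hs => hpt s ⟨hs.1, hs.2.trans_lt ht.2⟩
    rw [intervalIntegral.integral_add (by simp) (iX.const_mul _), intervalIntegral.integral_const,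
      intervalIntegral.integral_const_mul, smul_eq_mul] at h2
    have h3 := RR_nonneg (ν := ν) (u := u) (t0 := t0) Q t
    have h4 : 4 * Real.pi ^ 2 * ν = Real.pi * K := by rw [hK]; ring
    rw [h4] at h1
    have h5 := mul_le_mul_of_nonneg_left h2 hpi.le
    have h6 : Real.pi * ((t - t0) * G) ≤ Real.pi * ((T - t0) * G) := by
      have := ht.2
      gcongr
    have h7 : K - K' = b / 2 := by rw [hK']; ring
    have h8 : Real.pi * (b / 2) * ∫ s in t0..t, XX ν u t0 Q s
        = Real.pi * K * (∫ s in t0..t, XX ν u t0 Q s) - Real.pi * (K' * ∫ s in t0..t, XX ν u t0 Q s) := by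
      rw [← h7]; ring
    rw [h8]
    linarith
  refine bounded_of_WW h hν ht0 (C := G * (T - t0) + K' * ((c + Real.pi * G * (T - t0)) /
    (Real.pi * (b / 2)))) fun t ht => ?_
  obtain ⟨hRc, hXc, hWc⟩ := cont_all h hν ht0 Q ht.2 ht.1
  have iW : IntervalIntegrable (fun s => WW u s ^ 2) volume t0 t :=
    (hWc.pow 2).intervalIntegrable_of_Icc ht.1
  have iX : IntervalIntegrable (XX ν u t0 Q) volume t0 t := hXc.intervalIntegrable_of_Icc ht.1
  have h2 : ∫ s in t0..t, WW u s ^ 2 ≤ ∫ s in t0..t, (G + K' * XX ν u t0 Q s) :=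
    intervalIntegral.integral_mono_on ht.1 iW ((by simp : IntervalIntegrable (fun _ => G) volume
      t0 t).add (iX.const_mul _)) fun s hs => hpt s ⟨hs.1, hs.2.trans_lt ht.2⟩
  rw [intervalIntegral.integral_add (by simp) (iX.const_mul _), intervalIntegral.integral_const,
    intervalIntegral.integral_const_mul, smul_eq_mul] at h2
  have h9 : ∫ s in t0..t, XX ν u t0 Q s ≤ (c + Real.pi * G * (T - t0)) / (Real.pi * (b / 2)) := by
    rw [le_div_iff₀ (by positivity), mul_comm]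
    exact hX t ht
  have h10 := mul_le_mul_of_nonneg_left h9 hK'0
  have h11 : (t - t0) * G ≤ G * (T - t0) := by
    rw [mul_comm]
    have := ht.2
    gcongr
  linarith

end Pool.Agent.W909.NS
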