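import Pool.Agent.W909.NS.Fin2

/-!
# The two forms of the blow-up inequality
-/

set_option autoImplicit false

open MeasureTheory Set Filter Topology H459R3.NS
open scoped ContDiff ENNReal

namespace Pool.Agent.W909.NS

variable {ν T : ℝ} {u : ℝ → V → V} {p : ℝ → V → ℝ}

/-- `|û(k)|` -/
noncomputable def amp (v : V → V) (k : K3) : ℝ := Real.sqrt (∑ i, ‖fr (fun x => v x i) k‖ ^ 2)

theorem amp_eq (v : V → V) (k : K3) : amp v k = ‖uh v k‖ := by
  rw [amp, EuclideanSpace.norm_eq]; rfl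

theorem amp_nonneg (v : V → V) (k : K3) : 0 ≤ amp v k := Real.sqrt_nonneg _

theorem yy_start (t0 : ℝ) (Q : Set K3) (k : K3) [Decidable (k ∈ Q)] :
    yy ν u t0 Q k t0 = if k = 0 then 0 else if k ∈ Q then 0 else amp (u t0) k := by
  unfold yy
  by_cases hk : k = 0
  · rw [if_pos hk, if_pos hk]
  · rw [if_neg hk, if_neg hk, rr, sub_self, Ev_zero, qq]
    by_cases hQ : k ∈ Q
    · rw [if_pos hQ, if_pos hQ, sub_self, norm_zero]
    · rw [if_neg hQ, if_neg hQ, sub_zero, amp_eq]

theorem AA_eq (t0 : ℝ) (Q : Set K3) [DecidablePred (· ∈ Q)] :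
    AA u t0 Q = ∑' k, if k = 0 then 0 else if k ∈ Q then amp (u t0) k else 0 := by
  unfold AA
  refine tsum_congr fun k => ?_
  by_cases hk : k = 0
  · rw [if_pos hk, if_pos hk]
  · rw [if_neg hk, if_neg hk, qq]
    by_cases hQ : k ∈ Q
    · rw [if_pos hQ, if_pos hQ, amp_eq]
    · rw [if_neg hQ, if_neg hQ, norm_zero]

theorem RR_eq (t0 : ℝ) (Q : Set K3) [DecidablePred (· ∈ Q)] :
    RR ν u t0 Q t0 = ∑' k, if k = 0 then 0 else if k ∈ Q then 0 else amp (u t0) k / nk k := by
  unfold RR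
  refine tsum_congr fun k => ?_
  rw [yy_start]
  by_cases hk : k = 0
  · rw [if_pos hk, if_pos hk, zero_div]
  · rw [if_neg hk, if_neg hk]
    by_cases hQ : k ∈ Q
    · rw [if_pos hQ, if_pos hQ, zero_div]
    · rw [if_neg hQ, if_neg hQ]

theorem summable_amp (h : IsSol ν T u p) {t : ℝ} (ht : t ∈ Ico 0 T) : Summable (amp (u t)) := by
  have e : amp (u t) = fun k => ‖uh (u t) k‖ := funext fun k => amp_eq _ _
  rw [e]
  exact summable_uh fun i => h.sp ht i

/-- First form. -/
theorem first (h : IsSol ν T u p) (hν : 0 < ν)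
    (hb : ¬ ∃ M, ∀ t ∈ Ico 0 T, ∀ x i, |u t x i| ≤ M) {t : ℝ} (ht : t ∈ Ico 0 T) :
    1 ≤ ∑' k : K3, if k = 0 then 0 else
      amp (u t) k * min (Real.sqrt ((T - t) / (2 * ν))) (1 / (4 * Real.pi * ν * nk k)) := by
  classical
  have hpi := Real.pi_pos
  set K : ℝ := 4 * Real.pi * ν with hK
  have hK0 : 0 < K := by positivity
  set s : ℝ := Real.sqrt ((T - t) / (2 * ν)) with hs
  have hTt : 0 < T - t := sub_pos.2 ht.2
  have hs2 : s ^ 2 = (T - t) / (2 * ν) := Real.sq_sqrt (by positivity)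
  have hs0 : 0 < s := Real.sqrt_pos.2 (by positivity)
  set Q : Set K3 := {k | s ≤ 1 / (K * nk k)} with hQ
  have hsum := summable_amp h ht
  have hA := AA_eq (u := u) t Q
  have hR := RR_eq (ν := ν) (u := u) t Q
  have sA : Summable fun k => if k = 0 then 0 else if k ∈ Q then amp (u t) k else 0 := by
    refine Summable.of_nonneg_of_le (fun k => ?_) (fun k => ?_) hsum
    · split_ifs
      · exact le_rfl
      · exact amp_nonneg _ _
      · exact le_rfl
    · split_ifs
      · exact amp_nonneg _ _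
      · exact le_rfl
      · exact amp_nonneg _ _
  have sR : Summable fun k => if k = 0 then 0 else if k ∈ Q then 0 else amp (u t) k / nk k := by
    refine Summable.of_nonneg_of_le (fun k => ?_) (fun k => ?_) hsum
    · split_ifs
      · exact le_rfl
      · exact le_rfl
      · exact div_nonneg (amp_nonneg _ _) (nk_nonneg _)
    · split_ifs with h0 h1
      · exact amp_nonneg _ _
      · exact amp_nonneg _ _
      · exact div_le_self (amp_nonneg _ _) (one_le_nk h0)
  have e : ∑' k : K3, (if k = 0 then 0 else amp (u t) k * min s (1 / (K * nk k)))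
      = s * AA u t Q + RR ν u t Q t / K := by
    rw [hA, hR, ← tsum_mul_left, ← tsum_div_const, ← (sA.mul_left s).tsum_add (sR.div_const K)]
    refine tsum_congr fun k => ?_
    by_cases h0 : k = 0
    · rw [if_pos h0, if_pos h0, if_pos h0]; simp
    · rw [if_neg h0, if_neg h0, if_neg h0]
      by_cases h1 : k ∈ Q
      · rw [if_pos h1, if_pos h1, min_eq_left h1]; ring
      · rw [if_neg h1, if_neg h1]
        have h2 : 1 / (K * nk k) ≤ s := by
          have : ¬ s ≤ 1 / (K * nk k) := h1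
          exact (not_le.1 this).le
        rw [min_eq_right h2]
        have := nk_pos h0
        field_simp
        ring
  rw [e]
  have hA0 := AA_nonneg (u := u) (t0 := t) Q
  have hR0 := RR_nonneg (ν := ν) (u := u) (t0 := t) Q t
  rcases le_or_gt K (RR ν u t Q t) with h1 | h1
  · have : 1 ≤ RR ν u t Q t / K := (one_le_div hK0).2 h1
    have := mul_nonneg hs0.le hA0
    linarith
  · have h2 := blowup h hν hb ht Q h1
    rw [← hK] at h2
    have h3 : 2 * Real.pi * K * AA u t Q ^ 2 * (T - t) = (K * (s * AA u t Q)) ^ 2 := by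
      have : T - t = 2 * ν * s ^ 2 := by rw [hs2]; field_simp
      rw [this, hK]; ring
    rw [h3] at h2
    have h4 := abs_le_of_sq_le_sq' h2 (by positivity)
    have h5 : K ≤ K * (s * AA u t Q) + RR ν u t Q t := by linarith [h4.2]
    have h6 : 1 ≤ (K * (s * AA u t Q) + RR ν u t Q t) / K := (one_le_div hK0).2 h5
    rw [add_div, mul_div_cancel_left₀ _ hK0.ne'] at h6
    exact h6

/-- The energy of finitely many modes. -/
theorem sum_amp_sq_le {v : V → V} (hv : ∀ i, SP (fun x => v x i)) (F : Finset K3) :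
    ∑ k ∈ F, amp v k ^ 2 ≤ energy v := by
  have h1 : ∀ k, amp v k ^ 2 = ∑ i, ‖fr (fun x => v x i) k‖ ^ 2 := fun k =>
    Real.sq_sqrt (Finset.sum_nonneg fun _ _ => sq_nonneg _)
  simp_rw [h1]
  rw [Finset.sum_comm]
  unfold energy
  refine Finset.sum_le_sum fun i _ => ?_
  rw [← n2_fr (hv i), n2_sq]
  exact (summable_sq (rap_fr (hv i)).summable).sum_le_tsum F fun _ _ => sq_nonneg _

/-- Second form: the number of modes. -/
theorem second (h : IsSol ν T u p) (hν : 0 < ν)
    (hb : ¬ ∃ M, ∀ t ∈ Ico 0 T, ∀ x i, |u t x i| ≤ M) {t : ℝ} (ht : t ∈ Ico 0 T) (F : Finset K3)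
    {c : ℝ} (hc : (∑' k : K3, if k = 0 ∨ k ∈ F then 0 else amp (u t) k / nk k) ≤ c)
    (hcK : c < 4 * Real.pi * ν) :
    2 * ν * (1 - c / (4 * Real.pi * ν)) ^ 2 ≤ F.card * energy (u t) * (T - t) := by
  classical
  have hpi := Real.pi_pos
  set K : ℝ := 4 * Real.pi * ν with hK
  have hK0 : 0 < K := by positivity
  have hTt : 0 < T - t := sub_pos.2 ht.2
  have hR := RR_eq (ν := ν) (u := u) t (F : Set K3)
  have hR' : RR ν u t (F : Set K3) t ≤ c := by
    rw [hR]
    refine le_trans (le_of_eq (tsum_congr fun k => ?_)) hc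
    by_cases h0 : k = 0
    · rw [if_pos h0, if_pos (Or.inl h0)]
    · by_cases h1 : k ∈ F
      · rw [if_neg h0, if_pos (Finset.mem_coe.2 h1), if_pos (Or.inr h1)]
      · rw [if_neg h0, if_neg (fun h => h1 (Finset.mem_coe.1 h)), if_neg (by tauto)]
  have h2 := blowup h hν hb ht (F : Set K3) (hR'.trans_lt hcK)
  rw [← hK] at h2
  have hA : AA u t (F : Set K3) ≤ ∑ k ∈ F, amp (u t) k := by
    rw [AA_eq]
    rw [tsum_eq_sum (s := F) fun k hk => by
      by_cases h0 : k = 0
      · rw [if_pos h0]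
      · rw [if_neg h0, if_neg (fun h => hk (Finset.mem_coe.1 h))]]
    refine Finset.sum_le_sum fun k hk => ?_
    by_cases h0 : k = 0
    · rw [if_pos h0]; exact amp_nonneg _ _
    · rw [if_neg h0, if_pos (Finset.mem_coe.2 hk)]
  have hA0 := AA_nonneg (u := u) (t0 := t) (F : Set K3)
  have hA2 : AA u t (F : Set K3) ^ 2 ≤ F.card * energy (u t) := by
    calc AA u t (F : Set K3) ^ 2 ≤ (∑ k ∈ F, amp (u t) k) ^ 2 := by gcongr
      _ ≤ F.card * ∑ k ∈ F, amp (u t) k ^ 2 := sq_sum_le_card_mul_sum_sq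
      _ ≤ F.card * energy (u t) := by
        have := sum_amp_sq_le (fun i => h.sp ht i) F
        gcongr
  have h3 : (K - c) ^ 2 ≤ (K - RR ν u t (F : Set K3) t) ^ 2 := by
    have : 0 ≤ K - c := by linarith
    gcongr
  have h4 : K ^ 2 * (1 - c / K) ^ 2 = (K - c) ^ 2 := by
    rw [← mul_pow, mul_sub, mul_one, mul_div_cancel₀ _ hK0.ne']
  have h5 : 2 * Real.pi * K * AA u t (F : Set K3) ^ 2 * (T - t)
      ≤ 2 * Real.pi * K * (F.card * energy (u t)) * (T - t) := by gcongr
  have h6 : K ^ 2 * (1 - c / K) ^ 2 ≤ 2 * Real.pi * K * (F.card * energy (u t)) * (T - t) := by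
    rw [h4]; linarith
  have h7 : K ^ 2 * (1 - c / K) ^ 2 = (2 * Real.pi * K) * (2 * ν * (1 - c / K) ^ 2) := by
    rw [hK]; ring
  rw [h7, mul_assoc (2 * Real.pi * K) _ (T - t)] at h6
  exact le_of_mul_le_mul_left h6 (by positivity)

end Pool.Agent.W909.NS
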