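import Pool.Agent.W909.NS.Heat

/-!
# The heat-flow form of the blow-up inequality and its double series form
-/

set_option autoImplicit false

open MeasureTheory Set Filter Topology H459R3.NS
open scoped ContDiff ENNReal

namespace Pool.Agent.W909.NS

variable {ν T : ℝ} {u : ℝ → V → V} {p : ℝ → V → ℝ}

theorem HH_eq (v : V → V) (τ : ℝ) : HH ν v τ
    = ∑' k : K3, if k = 0 then 0 else Real.exp (-(4 * Real.pi ^ 2 * ν * nk k ^ 2 * τ)) * amp v k := by
  unfold HH
  refine tsum_congr fun k => ?_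
  rw [amp_eq]; rfl

/-- Third form. -/
theorem third (h : IsSol ν T u p) (hν : 0 < ν)
    (hb : ¬ ∃ M, ∀ t ∈ Ico 0 T, ∀ x i, |u t x i| ≤ M) {t : ℝ} (ht : t ∈ Ico 0 T) :
    2 * ν ≤ ∫ s in t..T, (∑' k : K3, if k = 0 then 0 else
      Real.exp (-(4 * Real.pi ^ 2 * ν * nk k ^ 2 * (s - t))) * amp (u t) k) ^ 2 := by
  have := blowup2 h hν hb ht
  simpa only [HH_eq] using this

/-- Fourth form. -/
theorem fourth (h : IsSol ν T u p) (hν : 0 < ν)
    (hb : ¬ ∃ M, ∀ t ∈ Ico 0 T, ∀ x i, |u t x i| ≤ M) {t : ℝ} (ht : t ∈ Ico 0 T) :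
    (Summable fun q : K3 × K3 => if q.1 = 0 ∨ q.2 = 0 then 0 else
      amp (u t) q.1 * amp (u t) q.2 / (nk q.1 ^ 2 + nk q.2 ^ 2)) ∧
    8 * Real.pi ^ 2 * ν ^ 2 ≤ ∑' q : K3 × K3, if q.1 = 0 ∨ q.2 = 0 then 0 else
      amp (u t) q.1 * amp (u t) q.2 / (nk q.1 ^ 2 + nk q.2 ^ 2) := by
  have hpi := Real.pi_pos
  have hsum := summable_amp h ht
  set c : ℝ := 4 * Real.pi ^ 2 * ν with hc
  have hc0 : 0 < c := by positivity
  -- the coefficients
  set a : K3 → ℝ := fun k => if k = 0 then 0 else amp (u t) k with ha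
  have ha0 : ∀ k, 0 ≤ a k := fun k => by
    simp only [ha]; split_ifs
    · exact le_rfl
    · exact amp_nonneg _ _
  have hale : ∀ k, a k ≤ amp (u t) k := fun k => by
    simp only [ha]; split_ifs
    · exact amp_nonneg _ _
    · exact le_rfl
  have has : Summable a := Summable.of_nonneg_of_le ha0 hale hsum
  have hasn : Summable fun k => ‖a k‖ := has.norm
  have haa : Summable fun q : K3 × K3 => a q.1 * a q.2 := summable_mul_of_summable_norm hasn hasn
  have hterm : ∀ q : K3 × K3, (if q.1 = 0 ∨ q.2 = 0 then 0 else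
      amp (u t) q.1 * amp (u t) q.2 / (nk q.1 ^ 2 + nk q.2 ^ 2))
      = a q.1 * a q.2 / (nk q.1 ^ 2 + nk q.2 ^ 2) := by
    intro q
    simp only [ha]
    by_cases h1 : q.1 = 0
    · simp [h1]
    · by_cases h2 : q.2 = 0
      · simp [h2]
      · rw [if_neg (by tauto), if_neg h1, if_neg h2]
  have hterm0 : ∀ q : K3 × K3, 0 ≤ a q.1 * a q.2 / (nk q.1 ^ 2 + nk q.2 ^ 2) := fun q => by
    have := ha0 q.1; have := ha0 q.2
    positivity
  have htle : ∀ q : K3 × K3, a q.1 * a q.2 / (nk q.1 ^ 2 + nk q.2 ^ 2) ≤ a q.1 * a q.2 := fun q => by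
    by_cases h1 : q.1 = 0
    · have : a q.1 = 0 := by simp [ha, h1]
      simp [this]
    · have h2 := one_le_nk h1
      have h3 : 1 ≤ nk q.1 ^ 2 + nk q.2 ^ 2 := by nlinarith [sq_nonneg (nk q.2)]
      exact div_le_self (mul_nonneg (ha0 _) (ha0 _)) h3
  have hS : Summable fun q : K3 × K3 => a q.1 * a q.2 / (nk q.1 ^ 2 + nk q.2 ^ 2) :=
    Summable.of_nonneg_of_le hterm0 htle haa
  simp_rw [hterm]
  refine ⟨hS, ?_⟩
  have h3 := third h hν hb ht
  -- the continuous functions
  let f : K3 × K3 → C(ℝ, ℝ) := fun q =>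
    ⟨fun s => a q.1 * a q.2 * Real.exp (-(c * (nk q.1 ^ 2 + nk q.2 ^ 2) * (s - t))), by fun_prop⟩
  have hfs : Summable fun q : K3 × K3 =>
      ‖(f q).restrict (⟨uIcc t T, isCompact_uIcc⟩ : TopologicalSpace.Compacts ℝ)‖ := by
    refine Summable.of_nonneg_of_le (fun q => norm_nonneg _) (fun q => ?_) haa
    refine (ContinuousMap.norm_le _ (mul_nonneg (ha0 _) (ha0 _))).2 fun s => ?_
    have hs : (s : ℝ) ∈ Icc t T := by
      have h0 : (s : ℝ) ∈ uIcc t T := s.2
      exact (uIcc_of_le ht.2.le).subset h0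
    have h1 : Real.exp (-(c * (nk q.1 ^ 2 + nk q.2 ^ 2) * ((s : ℝ) - t))) ≤ 1 := by
      rw [Real.exp_le_one_iff]
      have := mul_nonneg (mul_nonneg hc0.le (add_nonneg (sq_nonneg (nk q.1)) (sq_nonneg (nk q.2))))
        (sub_nonneg.2 hs.1)
      linarith
    have h2 : ‖((f q).restrict (⟨uIcc t T, isCompact_uIcc⟩ : TopologicalSpace.Compacts ℝ)) s‖
        = a q.1 * a q.2 * Real.exp (-(c * (nk q.1 ^ 2 + nk q.2 ^ 2) * ((s : ℝ) - t))) := by
      have := ha0 q.1; have := ha0 q.2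
      have e : ((f q).restrict (⟨uIcc t T, isCompact_uIcc⟩ : TopologicalSpace.Compacts ℝ)) s
        = a q.1 * a q.2 * Real.exp (-(c * (nk q.1 ^ 2 + nk q.2 ^ 2) * ((s : ℝ) - t))) := rfl
      rw [e, Real.norm_eq_abs, abs_of_nonneg (by positivity)]
    rw [h2]
    exact mul_le_of_le_one_right (mul_nonneg (ha0 _) (ha0 _)) h1
  have hH := intervalIntegral.hasSum_intervalIntegral_of_summable_norm hfs
  have hpt : ∀ s ∈ uIcc t T, (∑' k : K3, if k = 0 then 0 else
      Real.exp (-(c * nk k ^ 2 * (s - t))) * amp (u t) k) ^ 2 = ∑' q, f q s := by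
    intro s hs
    rw [uIcc_of_le ht.2.le] at hs
    have e1 : (fun k : K3 => if k = 0 then 0 else Real.exp (-(c * nk k ^ 2 * (s - t))) * amp (u t) k)
        = fun k => Real.exp (-(c * nk k ^ 2 * (s - t))) * a k := by
      funext k
      simp only [ha]
      split_ifs
      · simp
      · rfl
    rw [e1, pow_two, tsum_mul_tsum_of_summable_norm]
    · refine tsum_congr fun q => ?_
      show _ = a q.1 * a q.2 * Real.exp (-(c * (nk q.1 ^ 2 + nk q.2 ^ 2) * (s - t)))
      rw [show -(c * (nk q.1 ^ 2 + nk q.2 ^ 2) * (s - t))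
        = -(c * nk q.1 ^ 2 * (s - t)) + -(c * nk q.2 ^ 2 * (s - t)) by ring, Real.exp_add]
      ring
    all_goals
      refine Summable.of_nonneg_of_le (fun k => norm_nonneg _) (fun k => ?_) has
      have h1 : Real.exp (-(c * nk k ^ 2 * (s - t))) ≤ 1 := by
        rw [Real.exp_le_one_iff]
        have := mul_nonneg (mul_nonneg hc0.le (sq_nonneg (nk k))) (sub_nonneg.2 hs.1)
        linarith
      have := ha0 k
      rw [Real.norm_eq_abs, abs_of_nonneg (by positivity)]
      exact mul_le_of_le_one_left this h1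
  rw [intervalIntegral.integral_congr (g := fun s => ∑' q, f q s) hpt, ← hH.tsum_eq] at h3
  have hint : ∀ q : K3 × K3, ∫ s in t..T, f q s
      ≤ (a q.1 * a q.2 / (nk q.1 ^ 2 + nk q.2 ^ 2)) / c := by
    intro q
    by_cases h1 : q.1 = 0
    · have e : a q.1 = 0 := by simp [ha, h1]
      have : ∀ s, f q s = 0 := fun s => by
        show a q.1 * a q.2 * _ = 0
        rw [e]; simp
      simp [this, e]
    · have h2 := nk_pos h1
      set m : ℝ := c * (nk q.1 ^ 2 + nk q.2 ^ 2) with hm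
      have hm0 : 0 < m := by positivity
      have e : ∀ s, f q s = a q.1 * a q.2 * Real.exp (-(m * (s - t))) := fun s => rfl
      simp_rw [e]
      rw [intervalIntegral.integral_const_mul]
      have hd : ∀ s ∈ uIcc t T, HasDerivAt (fun s => -(Real.exp (-(m * (s - t))) / m))
          (Real.exp (-(m * (s - t)))) s := by
        intro s _
        have h1 : HasDerivAt (fun s => -(m * (s - t))) (-m) s := by
          have := (((hasDerivAt_id s).sub_const t).const_mul m).neg
          refine this.congr_deriv ?_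
          ring
        have h2 := (h1.exp.div_const m).neg
        refine h2.congr_deriv ?_
        field_simp
      rw [intervalIntegral.integral_eq_sub_of_hasDerivAt hd
        (Continuous.intervalIntegrable (by fun_prop) _ _)]
      have h4 : 0 < Real.exp (-(m * (T - t))) := Real.exp_pos _
      have h5 : -(Real.exp (-(m * (T - t))) / m) - -(Real.exp (-(m * (t - t))) / m) ≤ 1 / m := by
        rw [sub_self, mul_zero, neg_zero, Real.exp_zero]
        have : 0 < Real.exp (-(m * (T - t))) / m := by positivity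
        linarith
      calc a q.1 * a q.2 * (-(Real.exp (-(m * (T - t))) / m) - -(Real.exp (-(m * (t - t))) / m))
          ≤ a q.1 * a q.2 * (1 / m) := mul_le_mul_of_nonneg_left h5 (mul_nonneg (ha0 _) (ha0 _))
        _ = (a q.1 * a q.2 / (nk q.1 ^ 2 + nk q.2 ^ 2)) / c := by
          rw [hm]; field_simp
  have h6 : ∑' q, ∫ s in t..T, f q s
      ≤ ∑' q : K3 × K3, (a q.1 * a q.2 / (nk q.1 ^ 2 + nk q.2 ^ 2)) / c :=
    hH.summable.tsum_le_tsum hint (hS.div_const c)
  rw [tsum_div_const] at h6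
  have h7 : 2 * ν * c ≤ ∑' q : K3 × K3, a q.1 * a q.2 / (nk q.1 ^ 2 + nk q.2 ^ 2) := by
    rw [← le_div_iff₀ hc0]
    exact h3.trans h6
  have h8 : 8 * Real.pi ^ 2 * ν ^ 2 = 2 * ν * c := by rw [hc]; ring
  rw [h8]
  exact h7

end Pool.Agent.W909.NS
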