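import Pool.Agent.W909.NS.Fin3

/-!
# The blow-up inequality for the heat flow of the velocity
-/

set_option autoImplicit false

open MeasureTheory Set Filter Topology H459R3.NS
open scoped ContDiff ENNReal

namespace Pool.Agent.W909.NS

variable {ν T : ℝ} {u : ℝ → V → V} {p : ℝ → V → ℝ}

/-- `∑_{k ≠ 0} exp(-4 π² ν |k|² τ) |v̂(k)|`. -/
noncomputable def HH (ν : ℝ) (v : V → V) (τ : ℝ) : ℝ :=
  ∑' k, if k = 0 then 0 else Real.exp (-(lam ν k * τ)) * ‖uh v k‖

theorem HH_nonneg (v : V → V) (τ : ℝ) : 0 ≤ HH ν v τ := tsum_nonneg fun k => by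
  split_ifs
  · exact le_rfl
  · positivity

theorem HH_term_le (hν : 0 < ν) (v : V → V) {τ : ℝ} (hτ : 0 ≤ τ) (k : K3) :
    (if k = 0 then 0 else Real.exp (-(lam ν k * τ)) * ‖uh v k‖) ≤ ‖uh v k‖ := by
  split_ifs
  · exact norm_nonneg _
  · have h1 : Real.exp (-(lam ν k * τ)) ≤ 1 := by
      rw [Real.exp_le_one_iff]
      have := mul_nonneg (lam_nonneg hν k) hτ
      linarith
    calc Real.exp (-(lam ν k * τ)) * ‖uh v k‖ ≤ 1 * ‖uh v k‖ := by gcongr
      _ = ‖uh v k‖ := one_mul _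

theorem HH_summable (hν : 0 < ν) {v : V → V} (hv : ∀ i, SP (fun x => v x i)) {τ : ℝ} (hτ : 0 ≤ τ) :
    Summable fun k => if k = 0 then 0 else Real.exp (-(lam ν k * τ)) * ‖uh v k‖ :=
  Summable.of_nonneg_of_le (fun k => by
    split_ifs
    · exact le_rfl
    · positivity) (HH_term_le hν v hτ) (summable_uh hv)

theorem HH_le (hν : 0 < ν) {v : V → V} (hv : ∀ i, SP (fun x => v x i)) {τ : ℝ} (hτ : 0 ≤ τ) :
    HH ν v τ ≤ ∑' k, ‖uh v k‖ :=
  (HH_summable hν hv hτ).tsum_le_tsum (HH_term_le hν v hτ) (summable_uh hv)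

theorem HH_continuousOn (hν : 0 < ν) {v : V → V} (hv : ∀ i, SP (fun x => v x i)) :
    ContinuousOn (HH ν v) (Ici 0) := by
  refine continuousOn_tsum (fun k => ?_) (summable_uh hv) fun k s hs => ?_
  · split_ifs
    · exact continuousOn_const
    · exact Continuous.continuousOn (by fun_prop)
  · rw [Real.norm_eq_abs, abs_of_nonneg]
    · exact HH_term_le hν v hs k
    · split_ifs
      · exact le_rfl
      · positivity

section

variable (h : IsSol ν T u p) (hν : 0 < ν) {t0 : ℝ} (ht0 : t0 ∈ Ico 0 T)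

include h hν ht0 in
theorem WW_le_HH {s : ℝ} (hs : s ∈ Ico t0 T) :
    WW u s ≤ HH ν (u t0) (s - t0) + YY ν u t0 univ s := by
  obtain ⟨M, hM0, hM⟩ := yy_dom h hν ht0 univ hs.2 hs.1
  have hPs : Summable fun k => M * Pk k := summable_Pk.mul_left M
  have hmem : s ∈ Icc t0 s := ⟨hs.1, le_rfl⟩
  have hsp : ∀ i, SP (fun x => u t0 x i) := fun i => h.sp ht0 i
  have s1 : Summable fun k => yy ν u t0 univ k s :=
    Summable.of_nonneg_of_le (fun k => yy_nonneg univ k s) (fun k => (hM s hmem k).1) hPs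
  have s2 : Summable (wt (u s)) :=
    Summable.of_nonneg_of_le (wt_nonneg _) (fun k => (hM s hmem k).2.2.2) hPs
  have s3 := HH_summable hν hsp (sub_nonneg.2 hs.1)
  unfold WW HH YY
  rw [← s3.tsum_add s1]
  refine s2.tsum_le_tsum (fun k => ?_) (s3.add s1)
  by_cases hk : k = 0
  · subst hk; simp [wt_zero, yy]
  · rw [wt_ne hk, if_neg hk]
    have e : yy ν u t0 univ k s = ‖rr ν u t0 k (qq u t0 univ k) s‖ := by simp [yy, hk]
    rw [e]
    have e2 : qq u t0 univ k = uh (u t0) k := by simp [qq]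
    have h1 : uh (u s) k = rr ν u t0 k (qq u t0 univ k) s
        + Ev ν (uh (u t0) 0) k (qq u t0 univ k) (s - t0) := by rw [rr]; abel
    have h2 : ‖Ev ν (uh (u t0) 0) k (qq u t0 univ k) (s - t0)‖
        = Real.exp (-(lam ν k * (s - t0))) * ‖uh (u t0) k‖ := by
      have e : Ev ν (uh (u t0) 0) k (qq u t0 univ k) (s - t0)
          = Complex.exp (-(Lam ν (uh (u t0) 0) k * ((s - t0 : ℝ) : ℂ))) • qq u t0 univ k := by
        ext i; rfl
      rw [e, norm_smul, Complex.norm_exp, e2]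
      congr 2
      rw [Complex.neg_re, Complex.mul_re, Complex.ofReal_im, Complex.ofReal_re, Lam_re]
      ring
    have h3 := norm_add_le (rr ν u t0 k (qq u t0 univ k) s)
      (Ev ν (uh (u t0) 0) k (qq u t0 univ k) (s - t0))
    rw [← h1, h2] at h3
    linarith

include h hν ht0 in
/-- The comparison argument. -/
theorem compare2 {c' : ℝ} (hc : 0 < c') (hcK : c' < 4 * Real.pi * ν) {t1 : ℝ}
    (h01 : t0 ≤ t1) (ht1 : t1 < T)
    (hB : 2 * Real.pi * (4 * Real.pi * ν) * (∫ s in t0..t1, HH ν (u t0) (s - t0) ^ 2)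
      < (4 * Real.pi * ν - c') ^ 2) :
    ∀ s ∈ Icc t0 t1, RR ν u t0 univ s ≤ 4 * Real.pi * ν
      - Real.sqrt ((4 * Real.pi * ν - c') ^ 2
        - 2 * Real.pi * (4 * Real.pi * ν) * ∫ r in t0..s, HH ν (u t0) (r - t0) ^ 2) := by
  set K : ℝ := 4 * Real.pi * ν with hK
  have hpi := Real.pi_pos
  have hK0 : 0 < K := by positivity
  have hsp : ∀ i, SP (fun x => u t0 x i) := fun i => h.sp ht0 i
  set H : ℝ → ℝ := fun s => HH ν (u t0) (s - t0) with hH
  have hHc : ContinuousOn H (Ici t0) :=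
    (HH_continuousOn hν hsp).comp (continuous_id.sub continuous_const).continuousOn
      fun s hs => (show (0 : ℝ) ≤ s - t0 from sub_nonneg.2 hs)
  have hH0 : ∀ s, 0 ≤ H s := fun s => HH_nonneg _ _
  have hHi : ∀ a b, t0 ≤ a → t0 ≤ b → IntervalIntegrable (fun s => H s ^ 2) volume a b := by
    intro a b ha hb
    refine ContinuousOn.intervalIntegrable ((hHc.mono fun s hs => ?_).pow 2)
    exact (le_min ha hb).trans hs.1
  set B : ℝ → ℝ := fun s => (K - c') ^ 2 - 2 * Real.pi * K * ∫ r in t0..s, H r ^ 2 with hBdef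
  have hB0 : ∀ s ∈ Icc t0 t1, 0 < B s := by
    intro s hs
    have h1 : ∫ r in t0..s, H r ^ 2 ≤ ∫ r in t0..t1, H r ^ 2 := by
      rw [← intervalIntegral.integral_add_adjacent_intervals (hHi t0 s le_rfl hs.1)
        (hHi s t1 hs.1 h01)]
      have : 0 ≤ ∫ r in s..t1, H r ^ 2 :=
        intervalIntegral.integral_nonneg hs.2 fun s _ => sq_nonneg _
      linarith
    have h2 := mul_le_mul_of_nonneg_left h1 (by positivity : 0 ≤ 2 * Real.pi * K)
    simp only [hBdef]
    linarith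
  set ρ : ℝ → ℝ := fun s => K - Real.sqrt (B s) with hρ
  have hBc : ContinuousOn B (Icc t0 t1) := by
    refine continuousOn_const.sub (continuousOn_const.mul ?_)
    have := intervalIntegral.continuousOn_primitive_interval (μ := volume) (f := fun s => H s ^ 2)
      (a := t0) (b := t1) (by
        rw [uIcc_of_le h01]
        exact ((hHc.mono fun s hs => hs.1).pow 2).integrableOn_Icc)
    rwa [uIcc_of_le h01] at this
  have hBd : ∀ s ∈ Ioo t0 t1, HasDerivAt B (-(2 * Real.pi * K * H s ^ 2)) s := by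
    intro s hs
    have h1 : HasDerivAt (fun x => ∫ r in t0..x, H r ^ 2) (H s ^ 2) s := by
      have hcont : ContinuousAt (fun r => H r ^ 2) s :=
        ((hHc.pow 2).continuousAt (Ici_mem_nhds hs.1))
      refine intervalIntegral.integral_hasDerivAt_right (hHi t0 s le_rfl hs.1.le) ?_ hcont
      refine ContinuousOn.stronglyMeasurableAtFilter isOpen_Ioi ((hHc.mono fun r hr => ?_).pow 2) s
        (show s ∈ Ioi t0 from hs.1)
      exact (show t0 < r from hr).le
    have := (h1.const_mul (2 * Real.pi * K)).const_sub ((K - c') ^ 2)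
    exact this
  have hρc : ContinuousOn ρ (Icc t0 t1) := continuousOn_const.sub hBc.sqrt
  have hρd : ∀ s ∈ Ioo t0 t1, HasDerivAt ρ (Real.pi * (H s ^ 2 * K / Real.sqrt (B s))) s := by
    intro s hs
    have hsI : s ∈ Icc t0 t1 := ⟨hs.1.le, hs.2.le⟩
    have h1 := ((hBd s hs).sqrt (hB0 s hsI).ne').const_sub K
    refine h1.congr_deriv ?_
    have := Real.sqrt_pos.2 (hB0 s hsI)
    field_simp
  obtain ⟨hRc, hXc, hWc⟩ := cont_all h hν ht0 univ ht1 h01
  have hR00 : RR ν u t0 univ t0 = 0 := by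
    classical
    rw [RR_eq]
    refine (tsum_congr fun k => ?_).trans tsum_zero
    simp
  by_contra hne
  push Not at hne
  obtain ⟨s1, hs1, hs1'⟩ := hne
  set S : Set ℝ := {s ∈ Icc t0 t1 | ρ s ≤ RR ν u t0 univ s} with hS
  have hScl : IsClosed S := by
    have := (hRc.sub hρc).preimage_isClosed_of_isClosed isClosed_Icc
      (isClosed_Ici (a := (0 : ℝ)))
    convert this using 1
    ext s
    simp [hS]
  have hSne : S.Nonempty := ⟨s1, hs1, hs1'.le⟩
  have hSb : BddBelow S := ⟨t0, fun s hs => hs.1.1⟩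
  set a := sInf S with ha
  have haS : a ∈ S := hScl.csInf_mem hSne hSb
  obtain ⟨haI, haρ⟩ := haS
  have hρ0 : ρ t0 = c' := by
    simp only [hρ, hBdef, intervalIntegral.integral_same, mul_zero, sub_zero]
    rw [Real.sqrt_sq (by linarith)]
    ring
  have hat : t0 < a := by
    rcases eq_or_lt_of_le haI.1 with h0 | h0
    · rw [← h0, hρ0, hR00] at haρ
      linarith
    · exact h0
  have hlt : ∀ s ∈ Ico t0 a, RR ν u t0 univ s < ρ s := by
    intro s hs
    by_contra hc
    push Not at hc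
    have : s ∈ S := ⟨⟨hs.1, hs.2.le.trans haI.2⟩, hc⟩
    exact absurd (csInf_le hSb this) (not_le.2 hs.2)
  have hsubI : Icc t0 a ⊆ Icc t0 t1 := Icc_subset_Icc_right haI.2
  have haT : a ∈ Ico t0 T := ⟨haI.1, haI.2.trans_lt ht1⟩
  have h1 := sum_ineq h hν ht0 univ haT
  have iW : IntervalIntegrable (fun s => WW u s ^ 2) volume t0 a :=
    ((hWc.mono hsubI).pow 2).intervalIntegrable_of_Icc haI.1
  have iX : IntervalIntegrable (XX ν u t0 univ) volume t0 a :=
    (hXc.mono hsubI).intervalIntegrable_of_Icc haI.1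
  have iρ : IntervalIntegrable (fun s => Real.pi * (H s ^ 2 * K / Real.sqrt (B s))) volume t0 a := by
    refine ContinuousOn.intervalIntegrable_of_Icc haI.1 ?_
    refine continuousOn_const.mul (((((hHc.mono fun s hs => hs.1).pow 2)).mul
      continuousOn_const).div (hBc.mono hsubI).sqrt fun s hs => ?_)
    exact (Real.sqrt_pos.2 (hB0 s (hsubI hs))).ne'
  have h2 : ∫ s in t0..a, Real.pi * (H s ^ 2 * K / Real.sqrt (B s)) = ρ a - ρ t0 :=
    intervalIntegral.integral_eq_sub_of_hasDerivAt_of_le haI.1 (hρc.mono hsubI)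
      (fun s hs => hρd s ⟨hs.1, hs.2.trans_le haI.2⟩) iρ
  have h3 : ∫ s in t0..a, (Real.pi * WW u s ^ 2 - Real.pi * K * XX ν u t0 univ s)
      ≤ ∫ s in t0..a, Real.pi * (H s ^ 2 * K / Real.sqrt (B s)) := by
    refine intervalIntegral.integral_mono_on_of_le_Ioo haI.1 ((iW.const_mul _).sub (iX.const_mul _))
      iρ fun s hs => ?_
    have hsT : s ∈ Ico t0 T := ⟨hs.1.le, hs.2.trans (haI.2.trans_lt ht1)⟩
    have hsI : s ∈ Icc t0 t1 := hsubI ⟨hs.1.le, hs.2.le⟩
    have hR := hlt s ⟨hs.1.le, hs.2⟩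
    have hsq := Real.sqrt_pos.2 (hB0 s hsI)
    have hRK : RR ν u t0 univ s < K := by
      have : ρ s = K - Real.sqrt (B s) := rfl
      linarith
    have hW := WW_le_HH h hν ht0 hsT
    have hW2 : WW u s ^ 2 ≤ (H s + YY ν u t0 univ s) ^ 2 := by
      have := WW_nonneg (u := u) s
      gcongr
    have hp := pointwise (hH0 s) (YY_nonneg univ s) (RR_nonneg univ s) (XX_nonneg univ s) hRK
      (YY_sq h hν ht0 univ hsT)
    have hd : H s ^ 2 * K / (K - RR ν u t0 univ s) ≤ H s ^ 2 * K / Real.sqrt (B s) := by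
      refine div_le_div_of_nonneg_left (by positivity) hsq ?_
      have : ρ s = K - Real.sqrt (B s) := rfl
      linarith
    have := mul_le_mul_of_nonneg_left (hW2.trans (hp.trans (add_le_add hd le_rfl))) hpi.le
    linarith
  rw [intervalIntegral.integral_sub (iW.const_mul _) (iX.const_mul _),
    intervalIntegral.integral_const_mul, intervalIntegral.integral_const_mul, h2, hρ0] at h3
  have h4 : 4 * Real.pi ^ 2 * ν = Real.pi * K := by rw [hK]; ring
  rw [h4, hR00] at h1
  linarith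

/-- The inequality at a blow-up time, for the heat flow. -/
theorem blowup2 (h : IsSol ν T u p) (hν : 0 < ν)
    (hb : ¬ ∃ M, ∀ t ∈ Ico 0 T, ∀ x i, |u t x i| ≤ M) {t0 : ℝ} (ht0 : t0 ∈ Ico 0 T) :
    2 * ν ≤ ∫ s in t0..T, HH ν (u t0) (s - t0) ^ 2 := by
  by_contra hne
  push Not at hne
  apply hb
  have hpi := Real.pi_pos
  set K : ℝ := 4 * Real.pi * ν with hK
  have hK0 : 0 < K := by positivity
  have hsp : ∀ i, SP (fun x => u t0 x i) := fun i => h.sp ht0 i
  set H : ℝ → ℝ := fun s => HH ν (u t0) (s - t0) with hH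
  have hHc : ContinuousOn H (Ici t0) :=
    (HH_continuousOn hν hsp).comp (continuous_id.sub continuous_const).continuousOn
      fun s hs => (show (0 : ℝ) ≤ s - t0 from sub_nonneg.2 hs)
  have hH0 : ∀ s, 0 ≤ H s := fun s => HH_nonneg _ _
  have hHi : ∀ a b, t0 ≤ a → t0 ≤ b → IntervalIntegrable (fun s => H s ^ 2) volume a b := by
    intro a b ha hb
    refine ContinuousOn.intervalIntegrable ((hHc.mono fun s hs => ?_).pow 2)
    exact (le_min ha hb).trans hs.1
  have hmono : ∀ s ∈ Ico t0 T, ∫ r in t0..s, H r ^ 2 ≤ ∫ r in t0..T, H r ^ 2 := by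
    intro s hs
    rw [← intervalIntegral.integral_add_adjacent_intervals (hHi t0 s le_rfl hs.1)
      (hHi s T hs.1 ht0.2.le)]
    have : 0 ≤ ∫ r in s..T, H r ^ 2 :=
      intervalIntegral.integral_nonneg hs.2.le fun s _ => sq_nonneg _
    linarith
  have hlt : 2 * Real.pi * K * (∫ r in t0..T, H r ^ 2) < (K - 0) ^ 2 := by
    have h1 : 2 * Real.pi * K * (∫ r in t0..T, H r ^ 2) < 2 * Real.pi * K * (2 * ν) :=
      mul_lt_mul_of_pos_left hne (by positivity)
    have h2 : 2 * Real.pi * K * (2 * ν) = (K - 0) ^ 2 := by rw [hK]; ring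
    linarith
  obtain ⟨c', hc1, hc2, hc3⟩ : ∃ c', 0 < c' ∧ c' < K ∧
      2 * Real.pi * K * (∫ r in t0..T, H r ^ 2) < (K - c') ^ 2 := by
    have hcont : ContinuousAt (fun x : ℝ => (K - x) ^ 2) 0 := by fun_prop
    have hev : ∀ᶠ x in 𝓝 (0 : ℝ), 2 * Real.pi * K * (∫ r in t0..T, H r ^ 2) < (K - x) ^ 2 :=
      hcont.eventually (lt_mem_nhds hlt)
    have hev2 : ∀ᶠ x in 𝓝[>] (0 : ℝ), 2 * Real.pi * K * (∫ r in t0..T, H r ^ 2) < (K - x) ^ 2 :=
      nhdsWithin_le_nhds hev
    have hev3 : ∀ᶠ x in 𝓝[>] (0 : ℝ), x < K := nhdsWithin_le_nhds (Iio_mem_nhds hK0)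
    obtain ⟨x, hx1, hx2, hx3⟩ := (hev2.and (hev3.and self_mem_nhdsWithin)).exists
    exact ⟨x, hx3, hx2, hx1⟩
  set b : ℝ := Real.sqrt ((K - c') ^ 2 - 2 * Real.pi * K * ∫ r in t0..T, H r ^ 2) with hb'
  have hb0 : 0 < b := Real.sqrt_pos.2 (by linarith)
  have hRle : ∀ s ∈ Ico t0 T, RR ν u t0 univ s ≤ K - b := by
    intro s hs
    have hm := mul_le_mul_of_nonneg_left (hmono s hs) (by positivity : 0 ≤ 2 * Real.pi * K)
    have h2 := compare2 h hν ht0 hc1 hc2 hs.1 hs.2 (hm.trans_lt hc3) s ⟨hs.1, le_rfl⟩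
    refine h2.trans ?_
    have h3 : b ≤ Real.sqrt ((K - c') ^ 2 - 2 * Real.pi * K * ∫ r in t0..s, H r ^ 2) := by
      apply Real.sqrt_le_sqrt
      linarith
    linarith
  set A : ℝ := ∑' k, ‖uh (u t0) k‖ with hA
  have hA0 : 0 ≤ A := tsum_nonneg fun _ => norm_nonneg _
  have hHA : ∀ s ∈ Ico t0 T, H s ≤ A := fun s hs => HH_le hν hsp (sub_nonneg.2 hs.1)
  -- the integral of `XX`
  set K' : ℝ := K - b / 2 with hK'
  have hpt : ∀ s ∈ Ico t0 T, WW u s ^ 2 ≤ A ^ 2 * K' / (b / 2) + K' * XX ν u t0 univ s := by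
    intro s hs
    have h1 := hRle s hs
    have h2 : RR ν u t0 univ s < K' := by rw [hK']; linarith
    have h3 := pointwise hA0 (YY_nonneg univ s) (RR_nonneg univ s) (XX_nonneg univ s) h2
      (YY_sq h hν ht0 univ hs)
    have hW := (WW_le_HH h hν ht0 hs).trans (add_le_add (hHA s hs) le_rfl)
    have hW2 : WW u s ^ 2 ≤ (A + YY ν u t0 univ s) ^ 2 := by
      have := WW_nonneg (u := u) s
      gcongr
    refine hW2.trans (h3.trans (add_le_add ?_ le_rfl))
    have hK'0 : 0 ≤ K' := (RR_nonneg univ s).trans h2.le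
    refine div_le_div_of_nonneg_left (by positivity) (by linarith) ?_
    rw [hK']; linarith
  have hK'0 : 0 ≤ K' := (RR_nonneg univ t0).trans (by
    have := hRle t0 ⟨le_rfl, ht0.2⟩
    rw [hK']; linarith)
  set G : ℝ := A ^ 2 * K' / (b / 2) with hG
  have hG0 : 0 ≤ G := by positivity
  set c : ℝ := RR ν u t0 univ t0 with hcdef
  have hX : ∀ t ∈ Ico t0 T, Real.pi * (b / 2) * ∫ s in t0..t, XX ν u t0 univ s
      ≤ c + Real.pi * G * (T - t0) := by
    intro t ht
    obtain ⟨hRc, hXc, hWc⟩ := cont_all h hν ht0 univ ht.2 ht.1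
    have iW : IntervalIntegrable (fun s => WW u s ^ 2) volume t0 t :=
      (hWc.pow 2).intervalIntegrable_of_Icc ht.1
    have iX : IntervalIntegrable (XX ν u t0 univ) volume t0 t := hXc.intervalIntegrable_of_Icc ht.1
    have h1 := sum_ineq h hν ht0 univ ht
    have h2 : ∫ s in t0..t, WW u s ^ 2 ≤ ∫ s in t0..t, (G + K' * XX ν u t0 univ s) :=
      intervalIntegral.integral_mono_on ht.1 iW ((by simp : IntervalIntegrable (fun _ => G) volume
        t0 t).add (iX.const_mul _)) fun s hs => hpt s ⟨hs.1, hs.2.trans_lt ht.2⟩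
    rw [intervalIntegral.integral_add (by simp) (iX.const_mul _), intervalIntegral.integral_const,
      intervalIntegral.integral_const_mul, smul_eq_mul] at h2
    have h3 := RR_nonneg (ν := ν) (u := u) (t0 := t0) univ t
    have h4 : 4 * Real.pi ^ 2 * ν = Real.pi * K := by rw [hK]; ring
    rw [h4] at h1
    have h5 := mul_le_mul_of_nonneg_left h2 hpi.le
    have h6 : Real.pi * ((t - t0) * G) ≤ Real.pi * ((T - t0) * G) := by
      have := ht.2
      gcongr
    have h7 : K - K' = b / 2 := by rw [hK']; ring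
    have h8 : Real.pi * (b / 2) * ∫ s in t0..t, XX ν u t0 univ s
        = Real.pi * K * (∫ s in t0..t, XX ν u t0 univ s)
          - Real.pi * (K' * ∫ s in t0..t, XX ν u t0 univ s) := by
      rw [← h7]; ring
    rw [h8]
    linarith
  refine bounded_of_WW h hν ht0 (C := G * (T - t0) + K' * ((c + Real.pi * G * (T - t0)) /
    (Real.pi * (b / 2)))) fun t ht => ?_
  obtain ⟨hRc, hXc, hWc⟩ := cont_all h hν ht0 univ ht.2 ht.1
  have iW : IntervalIntegrable (fun s => WW u s ^ 2) volume t0 t :=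
    (hWc.pow 2).intervalIntegrable_of_Icc ht.1
  have iX : IntervalIntegrable (XX ν u t0 univ) volume t0 t := hXc.intervalIntegrable_of_Icc ht.1
  have h2 : ∫ s in t0..t, WW u s ^ 2 ≤ ∫ s in t0..t, (G + K' * XX ν u t0 univ s) :=
    intervalIntegral.integral_mono_on ht.1 iW ((by simp : IntervalIntegrable (fun _ => G) volume
      t0 t).add (iX.const_mul _)) fun s hs => hpt s ⟨hs.1, hs.2.trans_lt ht.2⟩
  rw [intervalIntegral.integral_add (by simp) (iX.const_mul _), intervalIntegral.integral_const,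
    intervalIntegral.integral_const_mul, smul_eq_mul] at h2
  have h9 : ∫ s in t0..t, XX ν u t0 univ s ≤ (c + Real.pi * G * (T - t0)) / (Real.pi * (b / 2)) := by
    rw [le_div_iff₀ (by positivity), mul_comm]
    exact hX t ht
  have h10 := mul_le_mul_of_nonneg_left h9 hK'0
  have h11 : (t - t0) * G ≤ G * (T - t0) := by
    rw [mul_comm]
    have := ht.2
    gcongr
  linarith

end

end Pool.Agent.W909.NS
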