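import Pool.Agent.W909.NS.Dom

/-!
# The inequality for one Fourier mode
-/

set_option autoImplicit false

open MeasureTheory Set Filter Topology H459R3.NS
open scoped ContDiff

namespace Pool.Agent.W909.NS

variable {ν T : ℝ} {u : ℝ → V → V} {p : ℝ → V → ℝ}

/-- `4 π² ν |k|²` -/
noncomputable def lam (ν : ℝ) (k : K3) : ℝ := 4 * Real.pi ^ 2 * ν * nk k ^ 2

theorem lam_nonneg (hν : 0 < ν) (k : K3) : 0 ≤ lam ν k := by unfold lam; positivity

theorem hasDerivAt_comp (h : IsSol ν T u p) {t : ℝ} (ht : t ∈ Ioo 0 T) (i : Fin 3) (k : K3) :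
    HasDerivAt (fun s => fr (fun x => u s x i) k)
      (-((lam ν k : ℝ) : ℂ) * fr (fun x => u t x i) k - fr (conv (fun i x => u t x i) i) k
        - 2 * Real.pi * Complex.I * (k i : ℂ) * fr (p t) k) t := by
  have hI : t ∈ Ico 0 T := ⟨ht.1.le, ht.2⟩
  have h1 := hasDerivAt_fr (F := fun s x => u s x i) (h.smooth_c i) ht k
  refine h1.congr_deriv ?_
  have hsp : ∀ i, SP (fun x => u t x i) := fun i => h.sp hI i
  have hc := sp_conv (v := fun i x => u t x i) hsp i
  have hp := (h.sp_p hI).pd i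
  have e : dt (fun s x => u s x i) t = fun x => (ν * lap (fun y => u t y i) x
      + ((-1) * conv (fun i y => u t y i) i x + (-1) * pd i (p t) x)) := by
    funext x
    rw [h.dt_eq ht]; ring
  have s1 : SP (fun x => ν * lap (fun y => u t y i) x) :=
    ⟨contDiff_const.mul (hsp i).lap.smooth, fun j x => by rw [(hsp i).lap.per j x]⟩
  have s2 : SP (fun x => (-1) * conv (fun i y => u t y i) i x) :=
    ⟨contDiff_const.mul hc.smooth, fun j x => by rw [hc.per j x]⟩
  have s3 : SP (fun x => (-1) * pd i (p t) x) :=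
    ⟨contDiff_const.mul hp.smooth, fun j x => by rw [hp.per j x]⟩
  rw [e, fr_add s1 (s2.add s3), fr_add s2 s3, fr_cmul, fr_cmul, fr_cmul]
  have e1 : fr (fun x => lap (fun y => u t y i) x) k = fr (lap (fun y => u t y i)) k := rfl
  have e2 : fr (fun x => pd i (p t) x) k = fr (pd i (p t)) k := rfl
  have e3 : fr (fun x => conv (fun i y => u t y i) i x) k = fr (conv (fun i y => u t y i) i) k := rfl
  rw [e1, e2, e3, fr_lap (hsp i), fr_pd (h.sp_p hI), D, lam]
  push_cast
  ring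

/-- The mean is conserved. -/
theorem mean_const (h : IsSol ν T u p) {s t : ℝ} (hs : s ∈ Ico 0 T) (ht : t ∈ Ico 0 T) :
    uh (u s) 0 = uh (u t) 0 := by
  have key : ∀ {s t : ℝ}, s ∈ Ico 0 T → t ∈ Ico 0 T → s ≤ t → ∀ i,
      fr (fun x => u t x i) 0 = fr (fun x => u s x i) 0 := by
    intro s t hs ht hst i
    have hc : ContinuousOn (fun s => fr (fun x => u s x i) 0) (Icc s t) :=
      (continuousOn_fr (h.smooth_c i).continuousOn 0).mono fun r hr =>
        ⟨hs.1.trans hr.1, hr.2.trans_lt ht.2⟩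
    have hd : ∀ r ∈ Ioo s t, HasDerivAt (fun s => fr (fun x => u s x i) 0) 0 r := by
      intro r hr
      have hr' : r ∈ Ioo 0 T := ⟨hs.1.trans_lt hr.1, hr.2.trans ht.2⟩
      have hI : r ∈ Ico 0 T := ⟨hr'.1.le, hr'.2⟩
      refine (hasDerivAt_comp h hr' i 0).congr_deriv ?_
      have hconv := fr_conv (v := fun i x => u r x i) (fun i => h.sp hI i) (h.divfree r hI) i 0
      have h0 : fr (conv (fun i x => u r x i) i) 0 = 0 := by
        refine hconv.unique ?_
        simp only [Pi.zero_apply, Int.cast_zero, zero_mul, Finset.sum_const_zero, mul_zero]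
        exact hasSum_zero
      rw [h0, lam, nk_zero]
      simp
    have h1 := intervalIntegral.integral_eq_sub_of_hasDerivAt_of_le hst hc hd
      (by simp)
    rw [intervalIntegral.integral_zero] at h1
    exact (sub_eq_zero.1 h1.symm)
  have : ∀ i, uh (u s) 0 i = uh (u t) 0 i := by
    intro i
    rcases le_total s t with hst | hst
    · exact (key hs ht hst i).symm
    · exact key ht hs hst i
  ext i
  exact this i

theorem uh_zero_im (v : V → V) (i : Fin 3) : (uh v 0 i).im = 0 := by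
  rw [uh_apply, fr, fc]
  have : ∀ x : V, ee (-0) x * ((v x i : ℝ) : ℂ) = ((v x i : ℝ) : ℂ) := by
    intro x; rw [neg_zero, ee_zero, one_mul]
  simp_rw [this]
  rw [integral_complex_ofReal, Complex.ofReal_im]

theorem dk_mean_im (v : V → V) (k : K3) : (dk k (uh v 0)).im = 0 := by
  unfold dk
  rw [Complex.im_sum]
  refine Finset.sum_eq_zero fun j _ => ?_
  rw [Complex.mul_im, uh_zero_im]
  simp

/-- `Λ = 4 π² ν |k|² + 2 π i k·m`. -/
noncomputable def Lam (ν : ℝ) (m : C3) (k : K3) : ℂ := (lam ν k : ℂ) + 2 * Real.pi * Complex.I * dk k m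

theorem Lam_re (ν : ℝ) (v : V → V) (k : K3) : (Lam ν (uh v 0) k).re = lam ν k := by
  unfold Lam
  have h := dk_mean_im v k
  rw [Complex.add_re, Complex.ofReal_re, Complex.mul_re, h]
  simp

/-- The free evolution. -/
noncomputable def Ev (ν : ℝ) (m : C3) (k : K3) (q : C3) (s : ℝ) : C3 :=
  WithLp.toLp 2 fun i => Complex.exp (-(Lam ν m k * s)) * q i

theorem Ev_apply (ν : ℝ) (m : C3) (k : K3) (q : C3) (s : ℝ) (i : Fin 3) :
    Ev ν m k q s i = Complex.exp (-(Lam ν m k * s)) * q i := rfl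

theorem Ev_zero (ν : ℝ) (m : C3) (k : K3) (q : C3) : Ev ν m k q 0 = q := by
  ext i; rw [Ev_apply]; simp

theorem dk_sub (k : K3) (a b : C3) : dk k (a - b) = dk k a - dk k b := by
  unfold dk
  rw [← Finset.sum_sub_distrib]
  refine Finset.sum_congr rfl fun i _ => ?_
  rw [PiLp.sub_apply]; ring

theorem dk_Ev {ν : ℝ} {m : C3} {k : K3} {q : C3} (hq : dk k q = 0) (s : ℝ) :
    dk k (Ev ν m k q s) = 0 := by
  unfold dk
  simp_rw [Ev_apply]
  have : ∀ i, (k i : ℂ) * (Complex.exp (-(Lam ν m k * s)) * q i)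
      = Complex.exp (-(Lam ν m k * s)) * ((k i : ℂ) * q i) := fun i => by ring
  simp_rw [this]
  rw [← Finset.mul_sum]
  have : ∑ i, (k i : ℂ) * q i = dk k q := rfl
  rw [this, hq, mul_zero]

theorem norm_Ev_le {ν : ℝ} (hν : 0 < ν) (v : V → V) (k : K3) (q : C3) {s : ℝ} (hs : 0 ≤ s) :
    ‖Ev ν (uh v 0) k q s‖ ≤ ‖q‖ := by
  have e : Ev ν (uh v 0) k q s = Complex.exp (-(Lam ν (uh v 0) k * s)) • q := by
    ext i; rfl
  rw [e, norm_smul, Complex.norm_exp]
  have : (-(Lam ν (uh v 0) k * s)).re = -(lam ν k * s) := by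
    rw [Complex.neg_re, Complex.mul_re, Complex.ofReal_im, Complex.ofReal_re, Lam_re]
    ring
  rw [this]
  have h1 : Real.exp (-(lam ν k * s)) ≤ 1 := by
    rw [Real.exp_le_one_iff]
    have := mul_nonneg (lam_nonneg hν k) hs
    linarith
  calc Real.exp (-(lam ν k * s)) * ‖q‖ ≤ 1 * ‖q‖ := by gcongr
    _ = ‖q‖ := one_mul _

theorem Ev_continuous (ν : ℝ) (m : C3) (k : K3) (q : C3) : Continuous (Ev ν m k q) := by
  have : Continuous fun s : ℝ => fun i => Complex.exp (-(Lam ν m k * s)) * q i := by fun_prop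
  exact (PiLp.continuous_toLp 2 _).comp this

/-- The remainder `r(s) = û(s) - e^{-Λ(s - t0)} q`. -/
noncomputable def rr (ν : ℝ) (u : ℝ → V → V) (t0 : ℝ) (k : K3) (q : C3) (s : ℝ) : C3 :=
  uh (u s) k - Ev ν (uh (u t0) 0) k q (s - t0)

/-- `∑ |û(l)| |û(k - l)|`, the mean being removed. -/
noncomputable def gg (u : ℝ → V → V) (k : K3) (s : ℝ) : ℝ := ∑' l, wt (u s) l * wt (u s) (k - l)

theorem hasDerivAt_norm_sq (h : IsSol ν T u p) {t0 : ℝ} (ht0 : t0 ∈ Ico 0 T) {t : ℝ}
    (ht : t ∈ Ioo 0 T) {k : K3} (hk : k ≠ 0) {q : C3} (hq : dk k q = 0) :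
    ∃ d : ℝ, HasDerivAt (fun s => ‖rr ν u t0 k q s‖ ^ 2) d t ∧
      d ≤ 2 * (-(lam ν k) * ‖rr ν u t0 k q t‖ ^ 2
        + Real.pi * nk k * ‖rr ν u t0 k q t‖ * gg u k t) := by
  have hI : t ∈ Ico 0 T := ⟨ht.1.le, ht.2⟩
  set m : C3 := uh (u t0) 0 with hm
  have hmt : uh (u t) 0 = m := mean_const h hI ht0
  set r : C3 := rr ν u t0 k q t with hr
  have hsp : ∀ i, SP (fun x => u t x i) := fun i => h.sp hI i
  have hdiv := h.divfree t hI
  -- components
  have hri : ∀ i, HasDerivAt (fun s => rr ν u t0 k q s i)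
      (-(Lam ν m k) * r i - (fr (conv (fun i x => u t x i) i) k
        - 2 * Real.pi * Complex.I * dk k (uh (u t) 0) * uh (u t) k i)
        - 2 * Real.pi * Complex.I * (k i : ℂ) * fr (p t) k) t := by
    intro i
    have h1 := hasDerivAt_comp h ht i k
    have h2 : HasDerivAt (fun s : ℝ => Complex.exp (-(Lam ν m k * ((s - t0 : ℝ) : ℂ))) * q i)
        (-(Lam ν m k) * (Complex.exp (-(Lam ν m k * ((t - t0 : ℝ) : ℂ))) * q i)) t := by
      have e1 : HasDerivAt (fun s : ℝ => ((s - t0 : ℝ) : ℂ)) 1 t := by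
        have := ((hasDerivAt_id t).sub_const t0).ofReal_comp
        simpa using this
      have e2 := ((e1.const_mul (Lam ν m k)).neg).cexp.mul_const (q i)
      refine e2.congr_deriv ?_
      simp only [Pi.neg_apply]
      ring
    have h3 := h1.sub h2
    refine h3.congr_deriv ?_
    have e3 : r i = fr (fun x => u t x i) k
        - Complex.exp (-(Lam ν m k * ((t - t0 : ℝ) : ℂ))) * q i := rfl
    have e4 : uh (u t) k i = fr (fun x => u t x i) k := rfl
    rw [e3, e4, hmt, Lam]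
    ring
  have hn : HasDerivAt (fun s => ∑ i, ‖rr ν u t0 k q s i‖ ^ 2)
      (∑ i, 2 * ((starRingEnd ℂ) (r i) * (-(Lam ν m k) * r i
        - (fr (conv (fun i x => u t x i) i) k
        - 2 * Real.pi * Complex.I * dk k (uh (u t) 0) * uh (u t) k i)
        - 2 * Real.pi * Complex.I * (k i : ℂ) * fr (p t) k)).re) t := by
    refine HasDerivAt.fun_sum fun i _ => ?_
    have := (hri i).norm_sq
    refine this.congr_deriv ?_
    rw [Complex.inner, mul_comm (starRingEnd ℂ _)]
  have hrk : dk k r = 0 := by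
    rw [hr, rr, dk_sub, dk_uh hsp hdiv, dk_Ev hq, sub_zero]
  have hrc : ∑ i, (starRingEnd ℂ) (r i) * (k i : ℂ) = 0 := by
    have h1 := congrArg (starRingEnd ℂ) hrk
    rw [dk, map_sum, map_zero] at h1
    rw [← h1]
    refine Finset.sum_congr rfl fun i _ => ?_
    rw [map_mul]
    have : (starRingEnd ℂ) (k i : ℂ) = (k i : ℂ) := by simp
    rw [this]; ring
  have hn' : HasDerivAt (fun s => ‖rr ν u t0 k q s‖ ^ 2) _ t :=
    hn.congr_of_eventuallyEq (Eventually.of_forall fun s => norm_sq_C3 _)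
  refine ⟨_, hn', ?_⟩
  · rw [← Finset.mul_sum, ← Complex.re_sum]
    have e : ∑ i, (starRingEnd ℂ) (r i) * (-(Lam ν m k) * r i
        - (fr (conv (fun i x => u t x i) i) k
        - 2 * Real.pi * Complex.I * dk k (uh (u t) 0) * uh (u t) k i)
        - 2 * Real.pi * Complex.I * (k i : ℂ) * fr (p t) k)
        = -(Lam ν m k) * ∑ i, (starRingEnd ℂ) (r i) * r i
          - ∑ i, (starRingEnd ℂ) (r i) * (fr (conv (fun i x => u t x i) i) k
            - 2 * Real.pi * Complex.I * dk k (uh (u t) 0) * uh (u t) k i)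
          - 2 * Real.pi * Complex.I * fr (p t) k * ∑ i, (starRingEnd ℂ) (r i) * (k i : ℂ) := by
      rw [Finset.mul_sum, Finset.mul_sum, ← Finset.sum_sub_distrib, ← Finset.sum_sub_distrib]
      exact Finset.sum_congr rfl fun i _ => by ring
    rw [e, hrc, mul_zero, sub_zero]
    have e5 : ∑ i, (starRingEnd ℂ) (r i) * r i = ((‖r‖ ^ 2 : ℝ) : ℂ) := by
      rw [norm_sq_C3]
      push_cast
      refine Finset.sum_congr rfl fun i _ => ?_
      rw [mul_comm, Complex.mul_conj, Complex.normSq_eq_norm_sq]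
      push_cast
      ring
    rw [e5, Complex.sub_re]
    have e6 : (-(Lam ν m k) * ((‖r‖ ^ 2 : ℝ) : ℂ)).re = -(lam ν k) * ‖r‖ ^ 2 := by
      rw [Complex.mul_re, Complex.ofReal_im, Complex.ofReal_re, Complex.neg_re, hm, Lam_re]
      ring
    rw [e6]
    have h7 := nl_le hsp hdiv hk hrk
    have h8 := (Complex.abs_re_le_norm (∑ i, (starRingEnd ℂ) (r i) *
      (fr (conv (fun i x => u t x i) i) k
        - 2 * Real.pi * Complex.I * dk k (uh (u t) 0) * uh (u t) k i))).trans h7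
    have h9 := (abs_le.1 h8).1
    unfold gg
    linarith

end Pool.Agent.W909.NS
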