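import Pool.Agent.W909.NS.Mode

/-!
# The integrated inequality for one mode
-/

set_option autoImplicit false

open MeasureTheory Set Filter Topology H459R3.NS
open scoped ContDiff

namespace Pool.Agent.W909.NS

variable {ν T : ℝ} {u : ℝ → V → V} {p : ℝ → V → ℝ}

theorem Pk_le_one (k : K3) : Pk k ≤ 1 := by
  unfold Pk
  have h : ∀ x : ℝ, 1 / (1 + x ^ 2) ≤ 1 := fun x => by
    rw [div_le_one (by positivity)]; nlinarith [sq_nonneg x]
  have h0 : ∀ x : ℝ, 0 ≤ 1 / (1 + x ^ 2) := fun x => by positivity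
  have h1 := mul_le_one₀ (h (k 1)) (h0 (k 2)) (h (k 2))
  exact mul_le_one₀ (h (k 0)) (mul_nonneg (h0 _) (h0 _)) h1

theorem wt_continuousOn (h : IsSol ν T u p) (k : K3) : ContinuousOn (fun s => wt (u s) k) (Ico 0 T) := by
  by_cases hk : k = 0
  · subst hk
    simp only [wt_zero]
    exact continuousOn_const
  · simp only [wt_ne hk]
    exact (continuousOn_uh h k).norm

theorem gg_continuousOn (h : IsSol ν T u p) (k : K3) {t1 : ℝ} (ht1 : t1 < T) :
    ContinuousOn (gg u k) (Icc 0 t1) := by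
  obtain ⟨M, hM0, hM⟩ := dom' h ht1
  have hsub : Icc 0 t1 ⊆ Ico 0 T := fun s hs => ⟨hs.1, hs.2.trans_lt ht1⟩
  unfold gg
  refine continuousOn_tsum (u := fun l => M * Pk l * (M * 1)) (fun l => ?_)
    ((summable_Pk.mul_left M).mul_right _) fun l s hs => ?_
  · exact ((wt_continuousOn h l).mono hsub).mul ((wt_continuousOn h (k - l)).mono hsub)
  · rw [Real.norm_eq_abs, abs_of_nonneg (mul_nonneg (wt_nonneg _ _) (wt_nonneg _ _))]
    have h1 := (wt_le (u s) l).trans (hM s hs l).1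
    have h2 := (wt_le (u s) (k - l)).trans (hM s hs (k - l)).1
    have h3 := Pk_le_one (k - l)
    have h4 : wt (u s) (k - l) ≤ M * 1 := h2.trans (by gcongr)
    exact mul_le_mul h1 h4 (wt_nonneg _ _) (by have := Pk_pos l; positivity)

theorem rr_continuousOn (h : IsSol ν T u p) (t0 : ℝ) (k : K3) (q : C3) :
    ContinuousOn (rr ν u t0 k q) (Ico 0 T) := by
  unfold rr
  exact (continuousOn_uh h k).sub
    (((Ev_continuous ν (uh (u t0) 0) k q).comp (continuous_id.sub continuous_const)).continuousOn)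

theorem gg_nonneg (u : ℝ → V → V) (k : K3) (s : ℝ) : 0 ≤ gg u k s :=
  tsum_nonneg fun _ => mul_nonneg (wt_nonneg _ _) (wt_nonneg _ _)

/-- elementary inequalities for the regularised norm -/
theorem reg_le {x ε : ℝ} (hx : 0 ≤ x) (hε : 0 < ε) {a b : ℝ} (ha : 0 ≤ a) (hb : 0 ≤ b) :
    (2 * (-a * x ^ 2 + b * x)) / (2 * Real.sqrt (x ^ 2 + ε ^ 2)) ≤ -a * (x - ε) + b := by
  set y := Real.sqrt (x ^ 2 + ε ^ 2) with hy
  have hy0 : 0 < y := Real.sqrt_pos.2 (by positivity)
  have hy2 : y ^ 2 = x ^ 2 + ε ^ 2 := Real.sq_sqrt (by positivity)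
  have hxy : x ≤ y := Real.le_sqrt_of_sq_le (by nlinarith)
  have hyx : y ≤ x + ε := by
    rw [hy]
    exact Real.sqrt_le_iff.2 ⟨by positivity, by nlinarith⟩
  rw [mul_div_mul_left _ _ two_ne_zero, div_le_iff₀ hy0]
  have h1 : b * x ≤ b * y := by gcongr
  have h2 : (x - ε) * y ≤ x ^ 2 := by
    rcases le_total x ε with h | h
    · nlinarith [mul_nonneg (sub_nonneg.2 h) hy0.le]
    · have := mul_le_mul_of_nonneg_left hyx (sub_nonneg.2 h)
      nlinarith
  have h3 := mul_le_mul_of_nonneg_left h2 ha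
  nlinarith

/-- The integrated inequality for one mode. -/
theorem mode_ineq (h : IsSol ν T u p) (hν : 0 < ν) {t0 : ℝ} (ht0 : t0 ∈ Ico 0 T) {t : ℝ}
    (ht : t ∈ Ico t0 T) {k : K3} (hk : k ≠ 0) {q : C3} (hq : dk k q = 0) :
    ‖rr ν u t0 k q t‖ + lam ν k * ∫ s in t0..t, ‖rr ν u t0 k q s‖
      ≤ ‖rr ν u t0 k q t0‖ + Real.pi * nk k * ∫ s in t0..t, gg u k s := by
  have hsub : Icc t0 t ⊆ Ico 0 T := fun s hs => ⟨ht0.1.trans hs.1, hs.2.trans_lt ht.2⟩
  have hsub2 : Icc t0 t ⊆ Icc 0 t := fun s hs => ⟨ht0.1.trans hs.1, hs.2⟩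
  have hrc : ContinuousOn (rr ν u t0 k q) (Icc t0 t) := (rr_continuousOn h t0 k q).mono hsub
  have hgc : ContinuousOn (gg u k) (Icc t0 t) := (gg_continuousOn h k ht.2).mono hsub2
  set a := lam ν k with ha
  have ha0 : 0 ≤ a := lam_nonneg hν k
  set b := Real.pi * nk k with hb
  have hb0 : 0 ≤ b := by have := nk_nonneg k; positivity
  have hri : IntervalIntegrable (fun s => ‖rr ν u t0 k q s‖) volume t0 t :=
    (hrc.norm).intervalIntegrable_of_Icc ht.1
  have hgi : IntervalIntegrable (gg u k) volume t0 t := hgc.intervalIntegrable_of_Icc ht.1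
  have key : ∀ ε : ℝ, 0 < ε → ‖rr ν u t0 k q t‖ + a * ∫ s in t0..t, ‖rr ν u t0 k q s‖
      ≤ ‖rr ν u t0 k q t0‖ + b * (∫ s in t0..t, gg u k s) + (1 + a * (t - t0)) * ε := by
    intro ε hε
    set f : ℝ → ℝ := fun s => Real.sqrt (‖rr ν u t0 k q s‖ ^ 2 + ε ^ 2) with hf
    set φ : ℝ → ℝ := fun s => -a * (‖rr ν u t0 k q s‖ - ε) + b * gg u k s with hφ
    have hd : ∀ s ∈ Ioo t0 t, ∃ d, HasDerivAt f d s ∧ d ≤ φ s := by
      intro s hs
      have hs' : s ∈ Ioo 0 T := ⟨ht0.1.trans_lt hs.1, hs.2.trans ht.2⟩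
      obtain ⟨d, hd, hd2⟩ := hasDerivAt_norm_sq h ht0 hs' hk hq
      have h1 : HasDerivAt f (d / (2 * Real.sqrt (‖rr ν u t0 k q s‖ ^ 2 + ε ^ 2))) s :=
        (hd.add_const (ε ^ 2)).sqrt (by positivity)
      refine ⟨_, h1, ?_⟩
      have h2 := reg_le (norm_nonneg (rr ν u t0 k q s)) hε ha0
        (mul_nonneg hb0 (gg_nonneg u k s))
      refine le_trans ?_ h2
      refine div_le_div_of_nonneg_right ?_ (by positivity)
      refine hd2.trans (le_of_eq ?_)
      rw [hb]; ring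
    choose! d hd1 hd2 using hd
    have hfc : ContinuousOn f (Icc t0 t) := ((hrc.norm.pow 2).add continuousOn_const).sqrt
    have hφc : ContinuousOn φ (Icc t0 t) :=
      (continuousOn_const.mul (hrc.norm.sub continuousOn_const)).add (continuousOn_const.mul hgc)
    have h3 := intervalIntegral.sub_le_integral_of_hasDeriv_right_of_le ht.1 hfc
      (fun s hs => (hd1 s hs).hasDerivWithinAt) (hφc.integrableOn_Icc) hd2
    have h4 : ∫ s in t0..t, φ s = -a * ((∫ s in t0..t, ‖rr ν u t0 k q s‖) - ε * (t - t0))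
        + b * ∫ s in t0..t, gg u k s := by
      rw [hφ, intervalIntegral.integral_add ((hri.sub (by simp)).const_mul _)
        (hgi.const_mul _), intervalIntegral.integral_const_mul, intervalIntegral.integral_const_mul,
        intervalIntegral.integral_sub hri (by simp), intervalIntegral.integral_const]
      simp only [smul_eq_mul]
      ring
    rw [h4] at h3
    have h5 : ‖rr ν u t0 k q t‖ ≤ f t := by
      rw [hf]; exact Real.le_sqrt_of_sq_le (by nlinarith)
    have h6 : f t0 ≤ ‖rr ν u t0 k q t0‖ + ε := by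
      rw [hf]
      have := norm_nonneg (rr ν u t0 k q t0)
      exact Real.sqrt_le_iff.2 ⟨by positivity, by nlinarith⟩
    nlinarith
  refine le_of_forall_pos_le_add fun δ hδ => ?_
  have hc : 0 < 1 + a * (t - t0) := by
    have := mul_nonneg ha0 (sub_nonneg.2 ht.1)
    linarith
  have := key (δ / (1 + a * (t - t0))) (by positivity)
  rw [mul_div_cancel₀ _ hc.ne'] at this
  exact this

end Pool.Agent.W909.NS
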