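import Pool.Agent.W909.NS.Ode

/-!
# The bound of the nonlinear term, and the time derivative of `|r|²`
-/

set_option autoImplicit false

open MeasureTheory Set Filter Topology H459R3.NS
open scoped ContDiff

namespace Pool.Agent.W909.NS

/-- The Fourier coefficients of the fluctuating part: the mean is removed. -/
noncomputable def ut (v : V → V) (k : K3) : C3 := if k = 0 then 0 else uh v k

/-- `|û(k)|`, and `0` for `k = 0`. -/
noncomputable def wt (v : V → V) (k : K3) : ℝ := ‖ut v k‖

theorem wt_nonneg (v : V → V) (k : K3) : 0 ≤ wt v k := norm_nonneg _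

theorem wt_zero (v : V → V) : wt v 0 = 0 := by simp [wt, ut]

theorem wt_ne {v : V → V} {k : K3} (hk : k ≠ 0) : wt v k = ‖uh v k‖ := by simp [wt, ut, hk]

theorem wt_le (v : V → V) (k : K3) : wt v k ≤ ‖uh v k‖ := by
  by_cases hk : k = 0
  · subst hk; rw [wt_zero]; exact norm_nonneg _
  · rw [wt_ne hk]

theorem norm_le_sum (a : C3) : ‖a‖ ≤ ∑ i, ‖a i‖ := by
  refine abs_le_of_sq_le_sq' ?_ (Finset.sum_nonneg fun _ _ => norm_nonneg _) |>.2
  rw [norm_sq_C3]
  simp only [Fin.sum_univ_three]
  nlinarith [norm_nonneg (a 0), norm_nonneg (a 1), norm_nonneg (a 2),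
    mul_nonneg (norm_nonneg (a 0)) (norm_nonneg (a 1)), mul_nonneg (norm_nonneg (a 0)) (norm_nonneg (a 2)),
    mul_nonneg (norm_nonneg (a 1)) (norm_nonneg (a 2))]

theorem comp_le_norm (a : C3) (i : Fin 3) : ‖a i‖ ≤ ‖a‖ := by
  refine abs_le_of_sq_le_sq' ?_ (norm_nonneg _) |>.2
  rw [norm_sq_C3]
  exact Finset.single_le_sum (f := fun i => ‖a i‖ ^ 2) (fun i _ => sq_nonneg _) (Finset.mem_univ i)

section field

variable {v : V → V} (hv : ∀ i, SP (fun x => v x i))
  (hdiv : ∀ x, ∑ i, pd i (fun y => v y i) x = 0)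

include hv in
theorem summable_uh : Summable fun k => ‖uh v k‖ := by
  refine Summable.of_nonneg_of_le (fun k => norm_nonneg _) (fun k => norm_le_sum _)
    (summable_sum fun i _ => ?_)
  exact (rap_fr (hv i)).summable.norm

include hv in
theorem summable_wt : Summable (wt v) :=
  Summable.of_nonneg_of_le (wt_nonneg v) (wt_le v) (summable_uh hv)

include hv hdiv in
theorem dk_uh (k : K3) : dk k (uh v k) = 0 := fr_div (v := fun i x => v x i) hv hdiv k

include hv hdiv in
/-- The bound of the nonlinear term. -/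
theorem nl_le {k : K3} (hk : k ≠ 0) {r : C3} (hr : dk k r = 0) :
    ‖∑ i, (starRingEnd ℂ) (r i) * (fr (conv (fun i x => v x i) i) k
      - 2 * Real.pi * Complex.I * dk k (uh v 0) * uh v k i)‖
      ≤ Real.pi * nk k * ‖r‖ * ∑' l, wt v l * wt v (k - l) := by
  have hw := summable_wt hv
  -- the terms
  have hS : ∀ i, HasSum (fun l => 2 * Real.pi * Complex.I * (dk k (uh v l) * uh v (k - l) i))
      (fr (conv (fun i x => v x i) i) k) := fun i => fr_conv (v := fun i x => v x i) hv hdiv i k
  have hT : ∀ i, HasSum (fun l => 2 * Real.pi * Complex.I * (dk k (ut v l) * ut v (k - l) i))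
      (fr (conv (fun i x => v x i) i) k - 2 * Real.pi * Complex.I * dk k (uh v 0) * uh v k i) := by
    intro i
    have h1 : HasSum (fun l : K3 => if l = 0 then 2 * Real.pi * Complex.I * dk k (uh v 0) * uh v k i
        else 0) (2 * Real.pi * Complex.I * dk k (uh v 0) * uh v k i) := by
      have := hasSum_ite_eq (0 : K3) (2 * Real.pi * Complex.I * dk k (uh v 0) * uh v k i)
      exact this
    refine ((hS i).sub h1).congr_fun ?_ |> fun h => h
    intro l
    by_cases h0 : l = 0
    · subst h0
      have : dk k (ut v 0) = 0 := by simp [dk, ut]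
      rw [this, if_pos rfl, sub_zero]
      ring
    · rw [if_neg h0, sub_zero]
      by_cases h2 : k - l = 0
      · have h3 : k = l := sub_eq_zero.1 h2
        have e1 : ut v (k - l) i = 0 := by rw [h2]; simp [ut]
        have e2 : dk k (uh v l) = 0 := by rw [← h3]; exact dk_uh hv hdiv k
        rw [e1, e2]; ring
      · have e1 : ut v (k - l) = uh v (k - l) := by simp [ut, h2]
        have e2 : ut v l = uh v l := by simp [ut, h0]
        rw [e1, e2]
  have hT' : ∀ i, HasSum (fun l => 2 * Real.pi * Complex.I * (dk k (ut v (k - l)) * ut v l i))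
      (fr (conv (fun i x => v x i) i) k - 2 * Real.pi * Complex.I * dk k (uh v 0) * uh v k i) := by
    intro i
    have h := (Equiv.subLeft k).hasSum_iff (f := fun l => 2 * Real.pi * Complex.I *
      (dk k (ut v l) * ut v (k - l) i)) |>.2 (hT i)
    refine h.congr_fun ?_ |> fun h => h
    intro l
    simp only [Function.comp_apply, Equiv.subLeft_apply, sub_sub_cancel]
  have hU : HasSum (fun l => Real.pi * Complex.I * ∑ i, (starRingEnd ℂ) (r i) *
      (dk k (ut v l) * ut v (k - l) i + dk k (ut v (k - l)) * ut v l i))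
      (∑ i, (starRingEnd ℂ) (r i) * (fr (conv (fun i x => v x i) i) k
      - 2 * Real.pi * Complex.I * dk k (uh v 0) * uh v k i)) := by
    have h := hasSum_sum (s := Finset.univ) fun (i : Fin 3) _ =>
      (((hT i).add (hT' i)).mul_left ((starRingEnd ℂ) (r i) / 2))
    have e : ∑ i, (starRingEnd ℂ) (r i) / 2 * (fr (conv (fun i x => v x i) i) k
        - 2 * Real.pi * Complex.I * dk k (uh v 0) * uh v k i + (fr (conv (fun i x => v x i) i) k
        - 2 * Real.pi * Complex.I * dk k (uh v 0) * uh v k i))
        = ∑ i, (starRingEnd ℂ) (r i) * (fr (conv (fun i x => v x i) i) k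
        - 2 * Real.pi * Complex.I * dk k (uh v 0) * uh v k i) :=
      Finset.sum_congr rfl fun i _ => by ring
    rw [e] at h
    refine h.congr_fun ?_ |> fun h => h
    intro l
    rw [Finset.mul_sum]
    exact Finset.sum_congr rfl fun i _ => by ring
  have hb : ∀ l, ‖Real.pi * Complex.I * ∑ i, (starRingEnd ℂ) (r i) *
      (dk k (ut v l) * ut v (k - l) i + dk k (ut v (k - l)) * ut v l i)‖
      ≤ Real.pi * nk k * ‖r‖ * (wt v l * wt v (k - l)) := by
    intro l
    rw [norm_mul, norm_mul, Complex.norm_I, mul_one, Complex.norm_real, Real.norm_eq_abs,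
      abs_of_pos Real.pi_pos]
    have := bil_le k hr (ut v l) (ut v (k - l))
    have h2 := mul_le_mul_of_nonneg_left this Real.pi_pos.le
    refine h2.trans (le_of_eq ?_)
    unfold wt
    ring
  have hsum : Summable fun l => wt v l * wt v (k - l) := by
    have hM : ∀ l, wt v l ≤ ∑' m, wt v m := fun l => hw.le_tsum l fun _ _ => wt_nonneg v _
    exact Summable.of_nonneg_of_le (fun l => mul_nonneg (wt_nonneg _ _) (wt_nonneg _ _))
      (fun l => mul_le_mul_of_nonneg_left (hM _) (wt_nonneg _ _)) (hw.mul_right _)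
  rw [← hU.tsum_eq, ← tsum_mul_left]
  exact tsum_of_norm_bounded (hsum.mul_left _).hasSum hb

end field

end Pool.Agent.W909.NS
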