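import Pool.Agent.H459R3.NS.Final
import Pool.Agent.W909.NS.Alg

/-!
# The equations for the Fourier coefficients of a smooth periodic solution
-/

set_option autoImplicit false

open MeasureTheory Set Filter Topology H459R3.NS
open scoped ContDiff

namespace Pool.Agent.W909.NS

variable {ν T : ℝ} {u : ℝ → V → V} {p : ℝ → V → ℝ}

/-- The Fourier coefficients `û(k) ∈ ℂ³` of a vector field. -/
noncomputable def uh (v : V → V) (k : K3) : C3 := WithLp.toLp 2 fun i => fr (fun x => v x i) k

theorem uh_apply (v : V → V) (k : K3) (i : Fin 3) : uh v k i = fr (fun x => v x i) k := rfl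

/-! ### time derivative of the Fourier coefficients -/

theorem continuousOn_fr {F : ℝ → V → ℝ}
    (hF : ContinuousOn (fun z : ℝ × V => F z.1 z.2) (Ico 0 T ×ˢ univ)) (k : K3) :
    ContinuousOn (fun s => fr (F s) k) (Ico 0 T) := by
  have hre : Continuous fun x : V => (ee (-k) x).re := Complex.continuous_re.comp (ee_continuous _)
  have him : Continuous fun x : V => (ee (-k) x).im := Complex.continuous_im.comp (ee_continuous _)
  have h1 := continuousOn_int (T := T) (F := fun s x => (ee (-k) x).re * F s x)
    ((hre.comp continuous_snd).continuousOn.mul hF)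
  have h2 := continuousOn_int (T := T) (F := fun s x => (ee (-k) x).im * F s x)
    ((him.comp continuous_snd).continuousOn.mul hF)
  have e : ∀ s ∈ Ico 0 T, fr (F s) k = ((∫ x in cube, (ee (-k) x).re * F s x : ℝ) : ℂ)
      + ((∫ x in cube, (ee (-k) x).im * F s x : ℝ) : ℂ) * Complex.I := by
    intro s hs
    have hc : Continuous (F s) := by
      rw [← continuousOn_univ]
      exact hF.comp (Continuous.prodMk_right s).continuousOn fun x _ => ⟨hs, mem_univ _⟩
    rw [fr, fc, ← integral_complex_ofReal, ← integral_complex_ofReal, ← integral_mul_const,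
      ← integral_add]
    · congr 1
      funext x
      conv_lhs => rw [← Complex.re_add_im (ee (-k) x)]
      push_cast
      ring
    · exact integrableOn_cube (by fun_prop)
    · exact integrableOn_cube (by fun_prop)
  refine ContinuousOn.congr ?_ e
  exact (Complex.continuous_ofReal.comp_continuousOn h1).add
    ((Complex.continuous_ofReal.comp_continuousOn h2).mul continuousOn_const)

theorem hasDerivAt_fr {F : ℝ → V → ℝ}
    (hF : ContDiffOn ℝ ∞ (fun z : ℝ × V => F z.1 z.2) (Ico 0 T ×ˢ univ)) {t : ℝ}
    (ht : t ∈ Ioo 0 T) (k : K3) :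
    HasDerivAt (fun s => fr (F s) k) (fr (dt F t) k) t := by
  have hrc : ContDiff ℝ 1 fun x : V => (ee (-k) x).re := Complex.reCLM.contDiff.comp (ee_contDiff _)
  have hic : ContDiff ℝ 1 fun x : V => (ee (-k) x).im := Complex.imCLM.contDiff.comp (ee_contDiff _)
  have hF1 : ContDiffOn ℝ 1 (fun z : ℝ × V => F z.1 z.2) (Ioo 0 T ×ˢ univ) :=
    mono_Ioo hF (by norm_cast)
  have h1 := hasDerivAt_int (T := T) (F := fun s x => (ee (-k) x).re * F s x)
    ((hrc.comp contDiff_snd).contDiffOn.mul hF1) ht
  have h2 := hasDerivAt_int (T := T) (F := fun s x => (ee (-k) x).im * F s x)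
    ((hic.comp contDiff_snd).contDiffOn.mul hF1) ht
  have d : ∀ (c : ℝ) (x : V), deriv (fun s => c * F s x) t = c * dt F t x := by
    intro c x
    exact ((hasDerivAt_slice hF1 ht x).differentiableAt.hasDerivAt.const_mul c).deriv
  simp only [d] at h1 h2
  have hcd : Continuous (dt F t) := (contDiff_dt hF ht).continuous
  have hev : ∀ᶠ s in 𝓝 t, fr (F s) k = ((∫ x in cube, (ee (-k) x).re * F s x : ℝ) : ℂ)
      + ((∫ x in cube, (ee (-k) x).im * F s x : ℝ) : ℂ) * Complex.I := by
    filter_upwards [Ioo_mem_nhds ht.1 ht.2] with s hs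
    have hc : Continuous (F s) := (contDiff_slice hF ⟨hs.1.le, hs.2⟩).continuous
    rw [fr, fc, ← integral_complex_ofReal, ← integral_complex_ofReal, ← integral_mul_const,
      ← integral_add]
    · congr 1
      funext x
      conv_lhs => rw [← Complex.re_add_im (ee (-k) x)]
      push_cast
      ring
    · exact integrableOn_cube (by have := hrc.continuous; fun_prop)
    · exact integrableOn_cube (by have := hic.continuous; fun_prop)
  have h3 := (h1.ofReal_comp).add ((h2.ofReal_comp).mul_const Complex.I)
  refine (h3.congr_of_eventuallyEq hev).congr_deriv ?_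
  rw [fr, fc, ← integral_complex_ofReal, ← integral_complex_ofReal, ← integral_mul_const,
    ← integral_add]
  · congr 1
    funext x
    conv_rhs => rw [← Complex.re_add_im (ee (-k) x)]
    push_cast
    ring
  · exact integrableOn_cube (by have := hrc.continuous; fun_prop)
  · exact integrableOn_cube (by have := hic.continuous; fun_prop)

/-! ### the Fourier coefficients of the terms of the equation -/

theorem fr_add {f g : V → ℝ} (hf : SP f) (hg : SP g) (k : K3) :
    fr (fun x => f x + g x) k = fr f k + fr g k := by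
  unfold fr fc
  rw [← integral_add]
  · congr 1; funext x; push_cast; ring
  · exact integrableOn_cube ((ee_continuous _).mul (contDiff_ofReal hf.smooth).continuous)
  · exact integrableOn_cube ((ee_continuous _).mul (contDiff_ofReal hg.smooth).continuous)

theorem fr_cmul {f : V → ℝ} (c : ℝ) (k : K3) :
    fr (fun x => c * f x) k = c * fr f k := by
  unfold fr fc
  rw [← integral_const_mul]
  congr 1; funext x; push_cast; ring

theorem fr_lap {f : V → ℝ} (hf : SP f) (k : K3) :
    fr (lap f) k = -((4 * Real.pi ^ 2 * nk k ^ 2 : ℝ) : ℂ) * fr f k := by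
  unfold lap
  rw [fr_sum (fun j _ => (hf.pd j).pd j)]
  simp_rw [fr_pd (hf.pd _), D, fr_pd hf, D]
  rw [nk_sq]
  push_cast
  rw [Finset.mul_sum, ← Finset.sum_neg_distrib, Finset.sum_mul]
  refine Finset.sum_congr rfl fun j _ => ?_
  have hI : Complex.I ^ 2 = -1 := Complex.I_sq
  linear_combination (4 * (Real.pi : ℂ) ^ 2 * (k j : ℂ) ^ 2 * fr f k) * hI

theorem fr_mul {f g : V → ℝ} (hf : SP f) (hg : SP g) (k : K3) :
    HasSum (fun l => fr f l * fr g (k - l)) (fr (fun x => f x * g x) k) := by
  have h := integral_ee_S_S (-k) (rap_fr hf).summable (rap_fr hg).summable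
  simp only [neg_neg] at h
  have e : (∫ x in cube, ee (-k) x * (S (fr f) x * S (fr g) x)) = fr (fun x => f x * g x) k := by
    have e1 : ∀ x, ee (-k) x * (S (fr f) x * S (fr g) x) = ee (-k) x * ((f x * g x : ℝ) : ℂ) := by
      intro x
      rw [S_fr hf x, S_fr hg x]
      push_cast
      ring
    simp_rw [e1]
    rfl
  rw [e] at h
  exact h

/-- The nonlinear term on the Fourier side. -/
theorem fr_conv {v : Fin 3 → V → ℝ} (hv : ∀ i, SP (v i)) (hdiv : ∀ x, ∑ i, pd i (v i) x = 0)
    (i : Fin 3) (k : K3) :
    HasSum (fun l => 2 * Real.pi * Complex.I *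
      ((∑ j, (k j : ℂ) * fr (v j) l) * fr (v i) (k - l))) (fr (conv v i) k) := by
  unfold conv
  rw [fr_sum (fun j _ => (hv j).mul ((hv i).pd j))]
  have h1 : ∀ j ∈ (Finset.univ : Finset (Fin 3)),
      HasSum (fun l => fr (v j) l * fr (pd j (v i)) (k - l)) (fr (fun x => v j x * pd j (v i) x) k) :=
    fun j _ => fr_mul (hv j) ((hv i).pd j) k
  have h2 := hasSum_sum h1
  refine h2.congr_fun ?_ |> fun h => h
  intro l
  simp_rw [fr_pd (hv i), D]
  have hd := fr_div hv hdiv l
  rw [Finset.sum_mul, Finset.mul_sum]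
  have e : ∀ j, fr (v j) l * (2 * Real.pi * Complex.I * ((k - l) j : ℂ) * fr (v i) (k - l))
      = 2 * Real.pi * Complex.I * ((k j : ℂ) * fr (v j) l * fr (v i) (k - l))
        - 2 * Real.pi * Complex.I * fr (v i) (k - l) * ((l j : ℂ) * fr (v j) l) := by
    intro j
    simp only [Pi.sub_apply, Int.cast_sub]
    ring
  simp_rw [e]
  rw [Finset.sum_sub_distrib, ← Finset.mul_sum, ← Finset.mul_sum, hd, mul_zero, sub_zero]

end Pool.Agent.W909.NS
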