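import Pool.Agent.W909.NS.Mode2

/-!
# The sum over all modes
-/

set_option autoImplicit false

open MeasureTheory Set Filter Topology H459R3.NS
open scoped ContDiff

namespace Pool.Agent.W909.NS

variable {ν T : ℝ} {u : ℝ → V → V} {p : ℝ → V → ℝ}

/-- The change of variables `(k, l) ↦ (l, k - l)`. -/
def eqc : K3 × K3 ≃ K3 × K3 where
  toFun x := (x.2, x.1 - x.2)
  invFun x := (x.1 + x.2, x.1)
  left_inv x := by ext <;> simp
  right_inv x := by ext <;> simp

theorem conv_sum {w : K3 → ℝ} (hw0 : ∀ k, 0 ≤ w k) (hw : Summable w) :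
    HasSum (fun k => ∑' l, w l * w (k - l)) ((∑' k, w k) ^ 2) := by
  have h1 : Summable fun x : K3 × K3 => w x.1 * w x.2 := hw.mul_of_nonneg hw hw0 hw0
  have h2 : Summable fun x : K3 × K3 => w x.2 * w (x.1 - x.2) := (eqc.summable_iff).2 h1
  have h3 : ∑' x : K3 × K3, w x.2 * w (x.1 - x.2) = (∑' k, w k) ^ 2 := by
    have e := eqc.tsum_eq (fun x : K3 × K3 => w x.1 * w x.2)
    rw [pow_two, hw.tsum_mul_tsum hw h1, ← e]
    rfl
  have h4 := h2.hasSum.prod_fiberwise fun k => (h2.prod_factor k).hasSum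
  rw [h3] at h4
  exact h4

theorem conv_summable {w : K3 → ℝ} (hw0 : ∀ k, 0 ≤ w k) (hw : Summable w) (k : K3) :
    Summable fun l => w l * w (k - l) := by
  have hM : ∀ l, w l ≤ ∑' m, w m := fun l => hw.le_tsum l fun _ _ => hw0 _
  exact Summable.of_nonneg_of_le (fun l => mul_nonneg (hw0 _) (hw0 _))
    (fun l => mul_le_mul_of_nonneg_left (hM _) (hw0 _)) (hw.mul_right _)

open Classical in
/-- The coefficients at time `t0` with indices in `Q`. -/
noncomputable def qq (u : ℝ → V → V) (t0 : ℝ) (Q : Set K3) (k : K3) : C3 :=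
  if k ∈ Q then uh (u t0) k else 0

/-- `|r(k)|` -/
noncomputable def yy (ν : ℝ) (u : ℝ → V → V) (t0 : ℝ) (Q : Set K3) (k : K3) (s : ℝ) : ℝ :=
  if k = 0 then 0 else ‖rr ν u t0 k (qq u t0 Q k) s‖

noncomputable def RR (ν : ℝ) (u : ℝ → V → V) (t0 : ℝ) (Q : Set K3) (s : ℝ) : ℝ :=
  ∑' k, yy ν u t0 Q k s / nk k

noncomputable def XX (ν : ℝ) (u : ℝ → V → V) (t0 : ℝ) (Q : Set K3) (s : ℝ) : ℝ :=
  ∑' k, nk k * yy ν u t0 Q k s

noncomputable def YY (ν : ℝ) (u : ℝ → V → V) (t0 : ℝ) (Q : Set K3) (s : ℝ) : ℝ :=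
  ∑' k, yy ν u t0 Q k s

noncomputable def WW (u : ℝ → V → V) (s : ℝ) : ℝ := ∑' k, wt (u s) k

section

variable (h : IsSol ν T u p) (hν : 0 < ν) {t0 : ℝ} (ht0 : t0 ∈ Ico 0 T) (Q : Set K3)

theorem yy_nonneg (k : K3) (s : ℝ) : 0 ≤ yy ν u t0 Q k s := by
  unfold yy; split_ifs
  · exact le_rfl
  · exact norm_nonneg _

include h ht0 in
theorem dk_qq (k : K3) : dk k (qq u t0 Q k) = 0 := by
  unfold qq
  split_ifs
  · exact dk_uh (fun i => h.sp ht0 i) (h.divfree t0 ht0) k
  · simp [dk]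

theorem norm_qq_le (k : K3) : ‖qq u t0 Q k‖ ≤ ‖uh (u t0) k‖ := by
  unfold qq
  split_ifs
  · exact le_rfl
  · rw [norm_zero]; exact norm_nonneg _

include h in
omit ht0 in
theorem yy_continuousOn (k : K3) : ContinuousOn (yy ν u t0 Q k) (Ico 0 T) := by
  by_cases hk : k = 0
  · have : yy ν u t0 Q k = fun _ => 0 := by funext s; simp [yy, hk]
    rw [this]; exact continuousOn_const
  · have : yy ν u t0 Q k = fun s => ‖rr ν u t0 k (qq u t0 Q k) s‖ := by funext s; simp [yy, hk]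
    rw [this]; exact (rr_continuousOn h t0 k _).norm

include h hν ht0 in
theorem yy_dom {t1 : ℝ} (ht1 : t1 < T) (h01 : t0 ≤ t1) : ∃ M : ℝ, 0 ≤ M ∧ ∀ s ∈ Icc t0 t1, ∀ k,
    yy ν u t0 Q k s ≤ M * Pk k ∧ nk k * yy ν u t0 Q k s ≤ M * Pk k ∧
      yy ν u t0 Q k s / nk k ≤ M * Pk k ∧ wt (u s) k ≤ M * Pk k := by
  obtain ⟨M, hM0, hM⟩ := dom' h ht1
  refine ⟨2 * M, by positivity, fun s hs k => ?_⟩
  have hs' : s ∈ Icc 0 t1 := ⟨ht0.1.trans hs.1, hs.2⟩
  have hP := Pk_pos k
  have hMP : 0 ≤ M * Pk k := by positivity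
  by_cases hk : k = 0
  · have e : yy ν u t0 Q k s = 0 := by simp [yy, hk]
    have e2 : wt (u s) k = 0 := by rw [hk, wt_zero]
    rw [e, e2, mul_zero, zero_div]
    exact ⟨by linarith, by linarith, by linarith, by linarith⟩
  · have e : yy ν u t0 Q k s = ‖rr ν u t0 k (qq u t0 Q k) s‖ := by simp [yy, hk]
    have h1 := hM s hs' k
    have h2 := hM t0 ⟨ht0.1, h01⟩ k
    have h3 : yy ν u t0 Q k s ≤ ‖uh (u s) k‖ + ‖uh (u t0) k‖ := by
      rw [e]
      refine (norm_sub_le _ _).trans (add_le_add le_rfl ?_)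
      exact (norm_Ev_le hν (u t0) k _ (sub_nonneg.2 hs.1)).trans (norm_qq_le Q k)
    have hn := one_le_nk hk
    have hn0 := nk_pos hk
    have a1 : yy ν u t0 Q k s ≤ 2 * M * Pk k := by linarith [h1.1, h2.1]
    refine ⟨a1, ?_, ?_, ?_⟩
    · have := mul_le_mul_of_nonneg_left h3 hn0.le
      rw [mul_add] at this
      linarith [h1.2, h2.2]
    · rw [div_le_iff₀ hn0]
      refine a1.trans ?_
      exact le_mul_of_one_le_right (by positivity) hn
    · have := (wt_le (u s) k).trans h1.1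
      linarith

/-- The sum of all modes. -/
theorem sum_ineq (h : IsSol ν T u p) (hν : 0 < ν) {t0 : ℝ} (ht0 : t0 ∈ Ico 0 T) (Q : Set K3)
    {t : ℝ} (ht : t ∈ Ico t0 T) :
    RR ν u t0 Q t + 4 * Real.pi ^ 2 * ν * ∫ s in t0..t, XX ν u t0 Q s
      ≤ RR ν u t0 Q t0 + Real.pi * ∫ s in t0..t, WW u s ^ 2 := by
  obtain ⟨M, hM0, hM⟩ := yy_dom h hν ht0 Q ht.2 ht.1
  have hsub : Icc t0 t ⊆ Ico 0 T := fun s hs => ⟨ht0.1.trans hs.1, hs.2.trans_lt ht.2⟩
  have hI : ∀ s ∈ uIoc t0 t, s ∈ Icc t0 t := fun s hs => by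
    rw [uIoc_of_le ht.1] at hs; exact ⟨hs.1.le, hs.2⟩
  have hPs : Summable fun k => M * Pk k := summable_Pk.mul_left M
  have hP0 : ∀ k, 0 ≤ M * Pk k := fun k => by have := Pk_pos k; positivity
  have hyc : ∀ k, ContinuousOn (yy ν u t0 Q k) (Icc t0 t) := fun k =>
    (yy_continuousOn h Q k).mono hsub
  have hgc : ∀ k, ContinuousOn (gg u k) (Icc t0 t) := fun k =>
    (gg_continuousOn h k ht.2).mono fun s hs => ⟨ht0.1.trans hs.1, hs.2⟩
  -- one mode
  have hk : ∀ k, yy ν u t0 Q k t / nk k + 4 * Real.pi ^ 2 * ν * ∫ s in t0..t, nk k * yy ν u t0 Q k s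
      ≤ yy ν u t0 Q k t0 / nk k + Real.pi * ∫ s in t0..t, gg u k s := by
    intro k
    have hg0 : 0 ≤ ∫ s in t0..t, gg u k s :=
      intervalIntegral.integral_nonneg ht.1 fun s _ => gg_nonneg u k s
    by_cases hk : k = 0
    · have e : ∀ s, yy ν u t0 Q k s = 0 := fun s => by simp [yy, hk]
      simp only [e, mul_zero, zero_div, intervalIntegral.integral_zero, zero_add]
      have := Real.pi_pos
      positivity
    · have e : ∀ s, yy ν u t0 Q k s = ‖rr ν u t0 k (qq u t0 Q k) s‖ := fun s => by simp [yy, hk]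
      have hn0 := nk_pos hk
      have h1 := mode_ineq h hν ht0 ht hk (dk_qq h ht0 Q k)
      simp only [e]
      rw [intervalIntegral.integral_const_mul]
      have h2 := div_le_div_of_nonneg_right h1 hn0.le
      refine le_trans (le_of_eq ?_) (h2.trans (le_of_eq ?_))
      · rw [lam]; field_simp
      · field_simp
  -- summation
  have s1 : Summable fun k => yy ν u t0 Q k t / nk k :=
    Summable.of_nonneg_of_le (fun k => div_nonneg (yy_nonneg Q k t) (nk_nonneg k))
      (fun k => (hM t ⟨ht.1, le_rfl⟩ k).2.2.1) hPs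
  have s2 : Summable fun k => yy ν u t0 Q k t0 / nk k :=
    Summable.of_nonneg_of_le (fun k => div_nonneg (yy_nonneg Q k t0) (nk_nonneg k))
      (fun k => (hM t0 ⟨le_rfl, ht.1⟩ k).2.2.1) hPs
  have s3 : HasSum (fun k => ∫ s in t0..t, nk k * yy ν u t0 Q k s) (∫ s in t0..t, XX ν u t0 Q s) := by
    refine intervalIntegral.hasSum_integral_of_dominated_convergence (fun k _ => M * Pk k)
      (fun k => ?_) (fun k => Eventually.of_forall fun s hs => ?_)
      (Eventually.of_forall fun s _ => hPs) (by simp)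
      (Eventually.of_forall fun s hs => ?_)
    · rw [uIoc_of_le ht.1]
      exact ((continuousOn_const.mul (hyc k)).mono Ioc_subset_Icc_self).aestronglyMeasurable
        measurableSet_Ioc
    · rw [Real.norm_eq_abs, abs_of_nonneg (mul_nonneg (nk_nonneg k) (yy_nonneg Q k s))]
      exact (hM s (hI s hs) k).2.1
    · exact (Summable.of_nonneg_of_le (fun k => mul_nonneg (nk_nonneg k) (yy_nonneg Q k s))
        (fun k => (hM s (hI s hs) k).2.1) hPs).hasSum
  have hPP := conv_sum hP0 hPs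
  have s4 : HasSum (fun k => ∫ s in t0..t, gg u k s) (∫ s in t0..t, WW u s ^ 2) := by
    refine intervalIntegral.hasSum_integral_of_dominated_convergence
      (fun k _ => ∑' l, M * Pk l * (M * Pk (k - l)))
      (fun k => ?_) (fun k => Eventually.of_forall fun s hs => ?_)
      (Eventually.of_forall fun s _ => hPP.summable) (by simp)
      (Eventually.of_forall fun s hs => ?_)
    · rw [uIoc_of_le ht.1]
      exact ((hgc k).mono Ioc_subset_Icc_self).aestronglyMeasurable measurableSet_Ioc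
    · rw [Real.norm_eq_abs, abs_of_nonneg (gg_nonneg u k s)]
      have hw : ∀ l, wt (u s) l ≤ M * Pk l := fun l => (hM s (hI s hs) l).2.2.2
      have hws : Summable (wt (u s)) := Summable.of_nonneg_of_le (wt_nonneg _) hw hPs
      unfold gg
      refine (conv_summable (wt_nonneg _) hws k).tsum_le_tsum (fun l => ?_)
        (conv_summable hP0 hPs k)
      exact mul_le_mul (hw l) (hw (k - l)) (wt_nonneg _ _) (hP0 l)
    · have hw : ∀ l, wt (u s) l ≤ M * Pk l := fun l => (hM s (hI s hs) l).2.2.2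
      have hws : Summable (wt (u s)) := Summable.of_nonneg_of_le (wt_nonneg _) hw hPs
      exact conv_sum (wt_nonneg _) hws
  have h5 := hasSum_le hk (s1.hasSum.add (s3.mul_left _)) (s2.hasSum.add (s4.mul_left _))
  exact h5

end

end Pool.Agent.W909.NS
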